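import Pool.Agent.MP_249f74_an.H10.S3d

/-!
Split tangent complexes of a quadric of rank three.
-/

open Matrix hiding J vec

namespace Pool.Agent.MP_249f74_an.H10

open H17.Cm (hat vec J quad sp grad rf Conf)
open H32 (pt dir pos edge Mir St Tl Qd)

variable {k C Ω ι : Type} [Field k] [Algebra k ℝ] [Field C] [Algebra k C] [Field Ω] [Algebra C Ω]
  [Fintype ι] [DecidableEq ι]

omit [DecidableEq ι] in
lemma real_sq {M : Matrix ι ι k} (hM : M.IsSymm) (h : M * M = 0) : M = 0 := by
  ext i j
  have h1 := congrArg (algebraMap k ℝ) (congrFun (congrFun h i) i)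
  simp only [Matrix.mul_apply, map_sum, map_mul, Matrix.zero_apply, map_zero, hM.apply i] at h1
  rw [Finset.sum_eq_zero_iff_of_nonneg fun _ _ => mul_self_nonneg _] at h1
  simpa using h1 j (Finset.mem_univ j)

omit [DecidableEq ι] in
lemma deg_le {A : Matrix (Option ι) (Option ι) C} (h : A.submatrix some some = 0) :
    (quad A).totalDegree ≤ 1 := by
  have h1 : ∀ o, (hat MvPolynomial.X o : MvPolynomial ι C).totalDegree ≤ o.elim 0 fun _ => 1 := by
    rintro (_ | i) <;> simp [hat]
  simp only [quad, dotProduct, mulVec, Finset.mul_sum, map_apply]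
  refine MvPolynomial.totalDegree_finsetSum_le fun o _ =>
    MvPolynomial.totalDegree_finsetSum_le fun o' _ => ?_
  have h2 := (MvPolynomial.totalDegree_mul (hat MvPolynomial.X o : MvPolynomial ι C) _).trans
    (add_le_add (h1 o) ((MvPolynomial.totalDegree_mul (MvPolynomial.C (A o o')) _).trans
      (add_le_add (MvPolynomial.totalDegree_C _).le (h1 o'))))
  rcases o with _ | i <;> rcases o' with _ | j
  exacts [h2.trans (by simp), h2, h2, by simp [show A (some i) (some j) = 0 from
    congrFun (congrFun h i) j]]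

/-- The quadratic part of a real quadric is semisimple. -/
lemma real_top [CharZero C] (m : Mir k C ι) {A : Matrix (Option ι) (Option ι) C} (hA : A.IsSymm)
    (hf : m.f = quad A) {c : C} (h1 : (A.submatrix some some).trace = 3 * c)
    (h2 : A.submatrix some some * (A.submatrix some some - c • 1) ^ 3 = 0) :
    A.submatrix some some * (A.submatrix some some - c • 1) = 0 ∧ c ≠ 0 := by
  have : CharZero k := (algebraMap k ℝ).charZero
  obtain ⟨G, a, -, hG, -⟩ := m.real
  have a0 : a / 2 ≠ 0 := div_ne_zero (fun e => m.prime.ne_zero (by simp [hG, e])) two_ne_zero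
  obtain ⟨M, hM⟩ : ∃ M : Matrix ι ι k, M = of fun i j =>
    MvPolynomial.constantCoeff (MvPolynomial.pderiv j (MvPolynomial.pderiv i G)) := ⟨_, rfl⟩
  have e : A.submatrix some some = (a / 2) • M.map (algebraMap k C) := by
    ext i j
    have := congrArg (fun P => MvPolynomial.constantCoeff
      (MvPolynomial.pderiv j (MvPolynomial.pderiv i P))) (hf.symm.trans hG)
    simp only [H17.Cm.pderiv_quad hA, Derivation.map_smul, MvPolynomial.pderiv_map,
      MvPolynomial.constantCoeff_smul, MvPolynomial.constantCoeff_map, mulVec, dotProduct,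
      two_mul, map_add, map_sum, Derivation.leibniz, H17.Cm.pderiv_hat, map_apply,
      MvPolynomial.pderiv_C] at this
    simp [Pi.single_apply, apply_ite] at this
    simp [hM]
    linear_combination (1 / 2 : C) * this
  have inj : ∀ N : Matrix ι ι k, N.map (algebraMap k C) = 0 → N = 0 := fun N hN => by
    ext i j; simpa using congrFun (congrFun hN i) j
  have sM : M.IsSymm := by
    ext i j
    have := hA.apply (some i) (some j)
    have h3 := fun i j => congrFun (congrFun e i) j
    simp only [submatrix_apply] at h3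
    rw [h3, h3] at this
    simpa [a0] using this
  obtain ⟨d, hd⟩ : ∃ d : k, c = a / 2 * algebraMap k C d := ⟨M.trace / 3, by
    rw [e, trace_smul, ← AddMonoidHom.map_trace] at h1
    rw [map_div₀, map_ofNat]
    linear_combination (-1 / 3 : C) * h1⟩
  have e2 : A.submatrix some some - c • 1 = (a / 2) • (M - d • 1).map (algebraMap k C) := by
    rw [e, hd]; ext i j
    by_cases h : i = j <;> simp [h, mul_sub]
  have e3 : M * (M - d • 1) ^ 3 = 0 := inj _ (by
    rw [e2, e, smul_pow, Matrix.smul_mul, Matrix.mul_smul, smul_smul, smul_eq_zero,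
      or_iff_right (by simpa using a0)] at h2
    rw [← RingHom.mapMatrix_apply, map_mul, map_pow]
    exact h2)
  have cm : (M - d • 1) * M = M * (M - d • 1) := by simp [Matrix.mul_sub, Matrix.sub_mul]
  have s1 : (M * (M - d • 1)).IsSymm := by
    rw [IsSymm, transpose_mul, sM.eq, (sM.sub (isSymm_one.smul d)).eq, cm]
  have e4 : M * (M - d • 1) = 0 := by
    refine real_sq s1 (real_sq (by rw [IsSymm, transpose_mul, s1.eq]) ?_)
    have := (Commute.mul_pow (a := M) (b := M - d • 1) cm.symm 4)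
    calc _ = (M * (M - d • 1)) ^ 4 := by simp only [pow_succ, pow_zero, one_mul, mul_assoc]
      _ = M ^ 3 * (M * (M - d • 1) ^ 3) * (M - d • 1) := by
        rw [this]; simp only [pow_succ, pow_zero, one_mul, mul_assoc]
      _ = 0 := by rw [e3]; simp
  refine ⟨by rw [e2, e, Matrix.smul_mul, Matrix.mul_smul, ← Matrix.map_mul, e4]; simp, fun c0 => ?_⟩
  have d0 : d = 0 := by simpa [a0, c0] using hd.symm
  rw [d0, zero_smul, sub_zero] at e4
  have := deg_le (A := A) (by rw [e, real_sq sM e4]; simp)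
  have := m.deg
  rw [hf] at this
  omega

lemma normal [IsAlgClosed C] [CharZero C] (m : Mir k C ι) {g : Fin 3 → Option ι → C}
    (hg : LinearIndependent C g) {A : Matrix (Option ι) (Option ι) C}
    (hA : A = ∑ a, vecMulVec (g a) (g a)) (hf : m.f = quad A) :
    ∃ (h : Matrix (Fin 3) (Option ι) C) (R : Matrix (Option ι) (Fin 3) C) (w : Fin 4 → C),
      A = hᵀ * A0 C * h ∧ h * R = 1 ∧ NF (Em h) w := by
  obtain ⟨R, hR⟩ : ∃ R : Matrix (Option ι) (Fin 3) C, of g * R = 1 := by
    refine mulVec_surjective_iff_exists_right_inverse.1 ?_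
    have := LinearIndependent.rank_matrix (M := of g) hg
    exact LinearMap.range_eq_top.1 (Submodule.eq_top_of_finrank_eq (S := (of g).mulVecLin.range)
      (by rw [Module.finrank_fintype_fun_eq_card]; exact this))
  obtain ⟨ρ, hρ⟩ := IsAlgClosed.exists_pow_nat_eq (1 / 2 : C) two_pos
  obtain ⟨I, hI⟩ := IsAlgClosed.exists_pow_nat_eq (-1 : C) two_pos
  obtain ⟨T, hT⟩ : ∃ T : Matrix (Fin 3) (Fin 3) C,
    T = !![0, ρ, ρ * I; ρ, 0, 0; 0, -ρ, ρ * I] := ⟨_, rfl⟩
  have e1 : Tᵀ * A0 C * T = 1 := by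
    ext i j
    simp only [Matrix.mul_apply, Fin.sum_univ_three, transpose_apply]
    fin_cases i <;> fin_cases j <;> simp [hT, A0] <;>
      first | ring1 | linear_combination 2 * hρ | linear_combination 2 * hρ - 2 * ρ ^ 2 * hI
  have e2 : A = (T * of g)ᵀ * A0 C * (T * of g) := by
    calc A = (of g)ᵀ * (Tᵀ * A0 C * T) * of g := by
          rw [e1, hA]; ext i j; simp [Matrix.mul_apply, Matrix.sum_apply, vecMulVec_apply]
      _ = _ := by simp only [transpose_mul, Matrix.mul_assoc]
  have e3 : T * of g * (R * (Tᵀ * A0 C)) = 1 := by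
    rw [Matrix.mul_assoc, ← Matrix.mul_assoc (of g), hR, Matrix.one_mul, mul_eq_one_comm, e1]
  generalize T * of g = h at e2 e3
  generalize R * (Tᵀ * A0 C) = R' at e3
  rcases nf (Em_symm (h := h)) with ⟨c, h1, h2⟩ | ⟨S, w, h1, h2⟩
  · exfalso
    have f1 : A.submatrix some some =
        (h.submatrix id some)ᵀ * A0 C * h.submatrix id some := by
      rw [e2]; ext i j; simp [Matrix.mul_apply]
    have f2 : Em h = h.submatrix id some * (h.submatrix id some)ᵀ := by
      ext i j
      simp [Em, J, vec, Matrix.mul_apply, Fintype.sum_option, diagonal_apply]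
    have f3 : ∀ n, A.submatrix some some * (A.submatrix some some - c • 1) ^ n =
        (h.submatrix id some)ᵀ * A0 C * (Em h * A0 C - c • 1) ^ n * h.submatrix id some := by
      intro n
      induction n with
      | zero => simpa using f1
      | succ n ih =>
        rw [pow_succ, ← Matrix.mul_assoc, ih, pow_succ, f1, f2]
        simp only [Matrix.mul_sub, Matrix.sub_mul, Matrix.mul_assoc, Matrix.mul_smul,
          Matrix.smul_mul, Matrix.mul_one]
    obtain ⟨g1, c0⟩ := real_top m (e2 ▸ cone_symm (A0_symm C)) hf (c := c)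
      (by rw [f1, Matrix.mul_assoc, trace_mul_comm, Matrix.mul_assoc, ← f2, trace_mul_comm, h2])
      (by rw [f3, h1]; simp)
    have g2 := f3 1
    rw [pow_one, pow_one, g1] at g2
    obtain ⟨U, hU⟩ : ∃ U, U = Em h * A0 C - c • 1 := ⟨_, rfl⟩
    rw [← hU] at h1 g2
    have g3 : (U + c • 1) * U * (U + c • 1) = 0 := by
      have := congrArg (fun X => h.submatrix id some * X * (h.submatrix id some)ᵀ * A0 C) g2
      simp only [Matrix.mul_zero, Matrix.zero_mul] at this
      rw [this, show U + c • 1 = Em h * A0 C by rw [hU, sub_add_cancel], f2]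
      simp only [Matrix.mul_assoc]
    have g4 : (2 * c) • U ^ 2 + c ^ 2 • U = 0 := by
      rw [← g3, ← zero_add (_ + _), ← h1]
      simp only [pow_succ, pow_zero, Matrix.one_mul, Matrix.mul_add, Matrix.add_mul,
        Matrix.mul_smul, Matrix.smul_mul, Matrix.mul_one]
      module
    have g5 : U ^ 2 = 0 := by
      have := congrArg (· * U) g4
      simp only [Matrix.add_mul, Matrix.smul_mul, ← pow_succ, h1, ← sq] at this
      simpa [c0] using this
    have g6 : Em h * A0 C = c • 1 := by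
      rw [← sub_eq_zero, ← hU]
      simpa [g5, c0] using g4
    refine m.nn (hf ▸ iso (e2 ▸ cone_symm (A0_symm C)) (γ := c) ?_)
    rw [e2, cone_J, Matrix.mul_assoc (A0 C), g6]
    simp
  · refine ⟨S * h, R' * ((1 / 2 : C) • (D0 C * Sᵀ * A0 C)), w, ?_, ?_, ?_⟩
    · rw [e2]; nth_rewrite 1 [← h1]; simp only [transpose_mul, Matrix.mul_assoc]
    · rw [Matrix.mul_assoc, ← Matrix.mul_assoc h, e3, Matrix.one_mul, mul_eq_one_comm,
        Matrix.smul_mul, Matrix.mul_assoc, Matrix.mul_assoc, ← Matrix.mul_assoc Sᵀ, h1, D0_A0,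
        smul_smul]
      norm_num
    · convert h2 using 1
      simp only [Em, transpose_mul, Matrix.mul_assoc]

omit [DecidableEq ι] in
lemma cone_B {h : Matrix (Fin 3) (Option ι) C} (c : C) (z : Option ι → C) :
    c • (hᵀ * A0 C * h) + vecMulVec ((hᵀ * A0 C * h) *ᵥ z) ((hᵀ * A0 C * h) *ᵥ z) =
      hᵀ * B0 c (A0 C *ᵥ h *ᵥ z) * h := by
  rw [B0, Matrix.mul_add, Matrix.add_mul, Matrix.mul_smul, Matrix.smul_mul, mul_vecMulVec,
    vecMulVec_mul, ← mulVec_mulVec, ← mulVec_mulVec, mulVec_transpose]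

/-- The orbit of a generic tangent edge of a second cone with the same vertex is infinite and
contains no other edge of this kind. -/
theorem s3 [IsAlgClosed C] [CharZero Ω] {m m' : Mir k C ι} (hq : Qd m) (hq' : Qd m')
    (hc : ¬Conf m.f m'.f) {g : Fin 3 → Option ι → C} (hg : LinearIndependent C g)
    {A : Matrix (Option ι) (Option ι) C} (hA : A = ∑ a, vecMulVec (g a) (g a))
    (hf : m.f = quad A) {c : C} (c0 : c ≠ 0) {z : Option ι → C}
    (hf' : m'.f = quad (c • A + vecMulVec (A *ᵥ z) (A *ᵥ z)))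
    (hr : (c • A + vecMulVec (A *ᵥ z) (A *ᵥ z)).rank = 3) {l l' : ι ⊕ ι → Ω} {u : Ω}
    (hl : Tl m' l) (st : St m l u l') :
    ∃ (K : ℕ → ι ⊕ ι → Ω) (w : ℕ → Ω), K 0 = l ∧ w 0 = u ∧
      (∀ n, St m (K n) (w n) (K (n + 1)) ∧ w n ≠ w (n + 1)) ∧
      ∀ i, 1 ≤ i → ∀ (m'' : Mir k C ι) (c' : C) (z' : Option ι → C), c' ≠ 0 →
        m''.f = quad (c' • A + vecMulVec (A *ᵥ z') (A *ᵥ z')) → ¬Tl m'' (K i) := by
  have : CharZero C := (algebraMap C Ω).charZero
  obtain ⟨h, R, w, rfl, hR, N⟩ := normal m hg hA hf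
  rw [cone_B] at hf' hr
  have hd : (B0 c (A0 C *ᵥ h *ᵥ z)).det ≠ 0 := by
    refine IsUnit.ne_zero ((isUnit_iff_isUnit_det _).1 (mulVec_surjective_iff_isUnit.1 ?_))
    refine LinearMap.range_eq_top.1 (Submodule.eq_top_of_finrank_eq
      (S := (B0 c (A0 C *ᵥ h *ᵥ z)).mulVecLin.range) (le_antisymm (Submodule.finrank_le _) ?_))
    rw [Module.finrank_fintype_fun_eq_card, Fintype.card_fin]
    exact hr.ge.trans ((rank_mul_le_left _ _).trans (rank_mul_le_right _ _))
  have tg : ∀ {m : Mir k C ι} {c : C} {v : Fin 3 → C} {l : ι ⊕ ι → Ω},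
      m.f = quad (hᵀ * B0 c v * h) → Tl m l → Tg h c v l := fun e T =>
    T.2.imp fun t ht => ⟨e ▸ (ht.1 _).2 dvd_rfl, e ▸ ht.2⟩
  obtain ⟨K, τ, k0, t0, h1, h2⟩ := core N hR c0 hd hf hf' hq hq' m.nn m'.nn hc hl.1 (tg hf' hl)
    st.zero st.nu
  refine ⟨K, τ, k0, t0, fun n => ?_, fun i hi m'' c' z' c1 e T =>
    h2 i hi c' _ c1 (tg (e.trans (congrArg quad (cone_B ..))) T)⟩
  obtain ⟨a1, a2, a3, a4, a5⟩ := h1 n
  exact ⟨a5 ▸ H32.st_edge a1 a2 a3, a4⟩

end Pool.Agent.MP_249f74_an.H10
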