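import Pool.Agent.MP_249f74_an.H96A.Defs

/-!
Normal form of a ternary quadratic form with respect to a conic.
-/

open Matrix

namespace Pool.Agent.MP_249f74_an.H10

open H96A (Wok)

/-- The standard conic. -/
def A0 (R : Type) [CommRing R] : Matrix (Fin 3) (Fin 3) R := !![0, 0, -1; 0, 2, 0; -1, 0, 0]

/-- The dual conic. -/
def D0 (R : Type) [CommRing R] : Matrix (Fin 3) (Fin 3) R := !![0, 0, -2; 0, 1, 0; -2, 0, 0]

/-- The symmetric square of a matrix. -/
def Sm {R : Type} [CommRing R] (a b c d : R) : Matrix (Fin 3) (Fin 3) R :=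
  !![a ^ 2, 2 * a * b, b ^ 2; a * c, a * d + b * c, b * d; c ^ 2, 2 * c * d, d ^ 2]

variable {C : Type} [Field C]

/-- The normal form. -/
structure NF (E : Matrix (Fin 3) (Fin 3) C) (w : Fin 4 → C) : Prop where
  e01 : E 0 1 = 0
  e12 : E 1 2 = 0
  w0 : w 0 = E 0 0
  w1 : w 1 + 4 * w 2 = 2 * E 0 2 + 4 * E 1 1
  w3 : w 3 = E 2 2
  ok : Wok w

lemma A0_symm (R : Type) [CommRing R] : (A0 R).IsSymm := by
  ext i j; fin_cases i <;> fin_cases j <;> simp [A0]

lemma A0_map {R S : Type} [CommRing R] [CommRing S] (f : R →+* S) : (A0 R).map f = A0 S := by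
  ext i j; fin_cases i <;> fin_cases j <;> simp [A0, map_ofNat]

lemma D0_A0 (R : Type) [CommRing R] : D0 R * A0 R = (2 : R) • (1 : Matrix (Fin 3) (Fin 3) R) := by
  ext i j; fin_cases i <;> fin_cases j <;> simp [A0, D0, Matrix.mul_apply, Fin.sum_univ_three]

lemma A0_D0 (R : Type) [CommRing R] : A0 R * D0 R = (2 : R) • (1 : Matrix (Fin 3) (Fin 3) R) := by
  ext i j; fin_cases i <;> fin_cases j <;> simp [A0, D0, Matrix.mul_apply, Fin.sum_univ_three]

lemma Sm_A0 {a b c d : C} (h : (a * d - b * c) ^ 2 = 1) :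
    (Sm a b c d)ᵀ * A0 C * Sm a b c d = A0 C := by
  have : (Sm a b c d)ᵀ * A0 C * Sm a b c d = (a * d - b * c) ^ 2 • A0 C := by
    ext i j
    fin_cases i <;> fin_cases j <;> simp [A0, Sm, Matrix.mul_apply, Fin.sum_univ_three] <;> ring
  rw [this, h, one_smul]

lemma cubic [IsAlgClosed C] [CharZero C] (T d : C) :
    (T = 0 ∧ d = 0) ∨ ∃ y, 4 * y ^ 3 - T * y + d = 0 ∧ T - 12 * y ^ 2 ≠ 0 := by
  obtain ⟨y, hy⟩ := IsAlgClosed.exists_root (Polynomial.C 4 * Polynomial.X ^ 3 -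
    Polynomial.C T * Polynomial.X + Polynomial.C d) (by
      rw [show (Polynomial.C 4 * Polynomial.X ^ 3 - Polynomial.C T * Polynomial.X +
        Polynomial.C d : Polynomial C).degree = 3 by compute_degree!]
      decide)
  have hy : 4 * y ^ 3 - T * y + d = 0 := by simpa using hy
  by_cases h : T - 12 * y ^ 2 = 0
  · by_cases h0 : y = 0
    · exact Or.inl ⟨by simpa [h0] using h, by simpa [h0] using hy⟩
    · refine Or.inr ⟨-2 * y, by linear_combination hy + 3 * y * h, fun h1 => h0 ?_⟩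
      have : 36 * y ^ 2 = 0 := by linear_combination h - h1
      simpa using this
  · exact Or.inr ⟨y, hy, h⟩

/-- A simple eigenvalue has a non isotropic eigenvector. -/
lemma eigen [IsAlgClosed C] [CharZero C] {a b m n e f : C}
    (hd : a * (n * f - e ^ 2) - b * (b * f - e * m) + m * (b * e - n * m) = 0)
    (hT : a * f - m ^ 2 - 4 * (b * e - m * n) ≠ 0) :
    ∃ x y z : C, a * x + b * y + m * z = 0 ∧ b * x + n * y + e * z = 0 ∧
      m * x + e * y + f * z = 0 ∧ y ^ 2 - 4 * x * z = 1 := by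
  have key : ∃ x y z : C, a * x + b * y + m * z = 0 ∧ b * x + n * y + e * z = 0 ∧
      m * x + e * y + f * z = 0 ∧ y ^ 2 - 4 * x * z ≠ 0 := by
    by_cases h0 : n * f - e ^ 2 = 0
    · by_cases h1 : a * f - m ^ 2 = 0
      · by_cases h2 : a * n - b ^ 2 = 0
        · have : (b * e - m * n) ^ 2 = 0 := by
            linear_combination (a * n - b ^ 2) * h0 - n * hd
          exact absurd (by rw [h1, pow_eq_zero_iff two_ne_zero |>.1 this]; ring) hT
        · refine ⟨b * e - m * n, b * m - a * e, a * n - b ^ 2, by ring, by ring,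
            by linear_combination hd, fun h => mul_ne_zero h2 hT ?_⟩
          linear_combination h + a * hd
      · refine ⟨e * m - b * f, a * f - m ^ 2, b * m - a * e, by ring, by linear_combination hd,
          by ring, fun h => mul_ne_zero h1 hT ?_⟩
        linear_combination h + 4 * m * hd
    · refine ⟨n * f - e ^ 2, e * m - b * f, b * e - m * n, by linear_combination hd, by ring,
        by ring, fun h => mul_ne_zero h0 hT ?_⟩
      linear_combination h + f * hd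
  obtain ⟨x, y, z, h1, h2, h3, h4⟩ := key
  obtain ⟨r, hr⟩ := IsAlgClosed.exists_pow_nat_eq (y ^ 2 - 4 * x * z)⁻¹ two_pos
  exact ⟨r * x, r * y, r * z, by linear_combination r * h1, by linear_combination r * h2,
    by linear_combination r * h3, by
      linear_combination (y ^ 2 - 4 * x * z) * hr + mul_inv_cancel₀ h4⟩

lemma factor [CharZero C] {x y z : C} (h : y ^ 2 - 4 * x * z = 1) :
    ∃ a b c d : C, a * c = x ∧ a * d + b * c = y ∧ b * d = z ∧ a * d - b * c = 1 := by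
  by_cases hp : y + 1 = 0
  · obtain rfl : y = -1 := by linear_combination hp
    have h0 : x * z = 0 := by linear_combination (-1 / 4 : C) * h
    exact ⟨x, -1, 1, -z, by ring, by linear_combination -h0, by ring, by linear_combination -h0⟩
  · refine ⟨(y + 1) / 2, z, 2 * x / (y + 1), 1, by field_simp, ?_, by ring, ?_⟩
    · field_simp; linear_combination -h
    · field_simp; linear_combination h

theorem nf [IsAlgClosed C] [CharZero C] {E : Matrix (Fin 3) (Fin 3) C} (hE : E.IsSymm) :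
    (∃ c : C, (E * A0 C - c • 1) ^ 3 = 0 ∧ (E * A0 C).trace = 3 * c) ∨
      ∃ (S : Matrix (Fin 3) (Fin 3) C) (w : Fin 4 → C), Sᵀ * A0 C * S = A0 C ∧
        NF (S * E * Sᵀ) w := by
  obtain ⟨a, b, p, n, e, f, rfl⟩ : ∃ a b p n e f : C, E = !![a, b, p; b, n, e; p, e, f] :=
    ⟨E 0 0, E 0 1, E 0 2, E 1 1, E 1 2, E 2 2, by
      ext i j
      fin_cases i <;> fin_cases j <;> simp [hE.apply 0 1, hE.apply 0 2, hE.apply 1 2]⟩
  obtain ⟨m, c, rfl, rfl⟩ : ∃ m c : C, p = m - 2 * c ∧ n = m + c :=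
    ⟨(p + 2 * n) / 3, (n - p) / 3, by ring, by ring⟩
  rcases cubic (a * f - m ^ 2 - 4 * (b * e - m * m))
    (a * (m * f - e ^ 2) - b * (b * f - e * m) + m * (b * e - m * m)) with ⟨h1, h2⟩ | ⟨y, h1, h2⟩
  · refine Or.inl ⟨2 * c, ?_, by simp [A0, trace, Fin.sum_univ_three]; ring⟩
    have : (!![a, b, m - 2 * c; b, m + c, e; m - 2 * c, e, f] * A0 C - (2 * c) • 1) ^ 3 =
        (a * f - m ^ 2 - 4 * (b * e - m * m)) •
          (!![a, b, m - 2 * c; b, m + c, e; m - 2 * c, e, f] * A0 C - (2 * c) • 1) -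
        (2 * (a * (m * f - e ^ 2) - b * (b * f - e * m) + m * (b * e - m * m))) • 1 := by
      ext i j
      fin_cases i <;> fin_cases j <;>
        simp [A0, pow_succ, Matrix.mul_apply, Fin.sum_univ_three] <;> ring
    rw [this, h1, h2]; simp
  right
  obtain ⟨x, y', z, k1, k2, k3, k4⟩ := eigen (a := a) (b := b) (m := m + 2 * y) (n := m - y)
    (e := e) (f := f) (by linear_combination h1) (fun h => h2 (by linear_combination h))
  obtain ⟨α, β, γ, δ, rfl, rfl, rfl, hd⟩ := factor k4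
  have key : ∀ α β γ δ : C, (α * δ - β * γ) ^ 2 = 1 →
      a * (α * γ) + b * (α * δ + β * γ) + (m + 2 * y) * (β * δ) = 0 →
      b * (α * γ) + (m - y) * (α * δ + β * γ) + e * (β * δ) = 0 →
      (m + 2 * y) * (α * γ) + e * (α * δ + β * γ) + f * (β * δ) = 0 →
      ∀ E, E = Sm α β γ δ * !![a, b, m - 2 * c; b, m + c, e; m - 2 * c, e, f] * (Sm α β γ δ)ᵀ →
      E 0 1 = 0 ∧ E 1 2 = 0 ∧ (2 * E 0 2 + 4 * E 1 1) ^ 2 ≠ 4 * E 0 0 * E 2 2 := by
    rintro α β γ δ hd k1 k2 k3 E hE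
    have e01 : E 0 1 = 0 := by
      simp only [hE, Matrix.mul_apply, Fin.sum_univ_three, transpose_apply]
      simp [Sm]
      linear_combination α ^ 2 * k1 + 2 * α * β * k2 + β ^ 2 * k3
    have e12 : E 1 2 = 0 := by
      simp only [hE, Matrix.mul_apply, Fin.sum_univ_three, transpose_apply]
      simp [Sm]
      linear_combination γ ^ 2 * k1 + 2 * γ * δ * k2 + δ ^ 2 * k3
    have e11 : E 1 1 = (c + y) * (α * δ - β * γ) ^ 2 := by
      simp only [hE, Matrix.mul_apply, Fin.sum_univ_three, transpose_apply]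
      simp [Sm]
      linear_combination α * γ * k1 + (α * δ + β * γ) * k2 + β * δ * k3
    have eT : E 0 0 * E 2 2 - (E 0 2 + 2 * (c + y) * (α * δ - β * γ) ^ 2) ^ 2 -
        4 * (E 0 1 * E 1 2 - (E 0 2 + 2 * (c + y) * (α * δ - β * γ) ^ 2) *
          (E 1 1 - (c + y) * (α * δ - β * γ) ^ 2)) = ((α * δ - β * γ) ^ 2) ^ 2 *
        (a * f - m ^ 2 - 4 * (b * e - m * m) - 12 * y ^ 2) := by
      simp only [hE, Matrix.mul_apply, Fin.sum_univ_three, transpose_apply]
      simp [Sm]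
      ring
    refine ⟨e01, e12, fun h => h2 ?_⟩
    rw [e01, e11, hd] at eT
    rw [e11, hd] at h
    linear_combination -eT - (1 / 4 : C) * h
  have fin : ∀ α β γ δ : C, (α * δ - β * γ) ^ 2 = 1 → ∀ E,
      E = Sm α β γ δ * !![a, b, m - 2 * c; b, m + c, e; m - 2 * c, e, f] * (Sm α β γ δ)ᵀ →
      E 0 1 = 0 ∧ E 1 2 = 0 ∧ (2 * E 0 2 + 4 * E 1 1) ^ 2 ≠ 4 * E 0 0 * E 2 2 →
      (E 2 2 = 0 → E 0 0 = 0) → ∃ (S : Matrix (Fin 3) (Fin 3) C) (w : Fin 4 → C),
        Sᵀ * A0 C * S = A0 C ∧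
          NF (S * !![a, b, m - 2 * c; b, m + c, e; m - 2 * c, e, f] * Sᵀ) w := by
    rintro α β γ δ hd E hE ⟨q1, q2, q3⟩ q4
    refine ⟨Sm α β γ δ, ?_⟩
    rw [← hE]
    by_cases h0 : E 0 0 = 0
    · have h4 : 2 * E 0 2 + 4 * E 1 1 ≠ 0 := fun h => q3 (by simp [h, h0])
      by_cases h3 : E 2 2 = 0
      · exact ⟨![0, 2 * E 0 2 + 4 * E 1 1, 0, 0], Sm_A0 hd, q1, q2, h0.symm, by simp, h3.symm,
          Or.inr (Or.inl ⟨rfl, rfl, rfl, h4⟩)⟩
      · exact ⟨![0, 0, (2 * E 0 2 + 4 * E 1 1) / 4, E 2 2], Sm_A0 hd, q1, q2, h0.symm,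
          by simp; ring, rfl, Or.inr (Or.inr ⟨rfl, rfl, div_ne_zero h4 (by norm_num), h3⟩)⟩
    · exact ⟨![E 0 0, 2 * E 0 2 + 4 * E 1 1, 0, E 2 2], Sm_A0 hd, q1, q2, rfl, by simp, rfl,
        Or.inl ⟨h0, fun h => h0 (q4 h), rfl, q3⟩⟩
  have d1 : (α * δ - β * γ) ^ 2 = 1 := by rw [hd, one_pow]
  have d2 : (γ * β - δ * α) ^ 2 = 1 := by linear_combination d1
  by_cases h : (Sm α β γ δ * !![a, b, m - 2 * c; b, m + c, e; m - 2 * c, e, f] *
      (Sm α β γ δ)ᵀ) 2 2 = 0
  · refine fin γ δ α β d2 _ rfl (key γ δ α β d2 (by linear_combination k1)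
      (by linear_combination k2) (by linear_combination k3) _ rfl) fun _ => ?_
    rw [← h]
    simp only [Matrix.mul_apply, Fin.sum_univ_three, transpose_apply]
    simp [Sm]
  · exact fin α β γ δ d1 _ rfl (key α β γ δ d1 k1 k2 k3 _ rfl) fun h' => absurd h' h

end Pool.Agent.MP_249f74_an.H10
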