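import Pool.Agent.MP_249f74_an.H10.S3a
import Pool.Agent.MP_249f74_an.H96A.Ht
import Pool.Agent.MP_249f74_an.H96A.Hk
import Pool.Agent.MP_249f74_an.H96A.Orb
import Pool.Agent.MP_249f74_an.H17.CmConf
import Pool.Agent.MP_249f74_an.H32.Mod

/-!
Reflections in a quadric of rank three.
-/

open Matrix hiding J vec

namespace Pool.Agent.MP_249f74_an.H10

open H96A (Wok Wf Qr Cst)
open H17.Cm (hat vec J quad sp grad rf)
open H32 (pt dir pos edge)

variable {C Ω ι : Type} [Field C] [Field Ω] [Algebra C Ω] [Fintype ι] [DecidableEq ι]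

/-- The coordinates in the quotient by the vertex. -/
def co (h : Matrix (Fin 3) (Option ι) C) (X : Option ι → Ω) : Fin 3 → Ω :=
  h.map (algebraMap C Ω) *ᵥ X

/-- The normal vector of a hyperplane through the vertex. -/
def cv (h : Matrix (Fin 3) (Option ι) C) (m : Fin 3 → Ω) : ι → Ω :=
  sp (m ᵥ* h.map (algebraMap C Ω))

/-- The absolute form on the hyperplanes through the vertex. -/
def Em (h : Matrix (Fin 3) (Option ι) C) : Matrix (Fin 3) (Fin 3) C := h * J ι C * hᵀ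

/-- Points of the conic. -/
def yv (t : Ω) : Fin 3 → Ω := ![1, t, t ^ 2]

/-- Chords of the conic. -/
def lv (s t : Ω) : Fin 3 → Ω := ![s * t, -(s + t), 1]

variable {h : Matrix (Fin 3) (Option ι) C}

omit [DecidableEq ι] in
lemma co_add (X Y : Option ι → Ω) : co h (X + Y) = co h X + co h Y := mulVec_add ..

omit [DecidableEq ι] in
lemma co_sub (X Y : Option ι → Ω) : co h (X - Y) = co h X - co h Y := mulVec_sub ..

omit [DecidableEq ι] in
lemma co_smul (a : Ω) (X : Option ι → Ω) : co h (a • X) = a • co h X := mulVec_smul ..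

omit [DecidableEq ι] in
lemma mul_co (M : Matrix (Fin 3) (Fin 3) C) (X : Option ι → Ω) :
    (hᵀ * M * h).map (algebraMap C Ω) *ᵥ X =
      (M.map (algebraMap C Ω) *ᵥ co h X) ᵥ* h.map (algebraMap C Ω) := by
  rw [Matrix.map_mul, Matrix.map_mul, ← mulVec_mulVec, ← mulVec_mulVec, transpose_map,
    mulVec_transpose, co]

omit [DecidableEq ι] in
lemma dot_co (m : Fin 3 → Ω) (X : Option ι → Ω) :
    X ⬝ᵥ (m ᵥ* h.map (algebraMap C Ω)) = m ⬝ᵥ co h X := by
  rw [dotProduct_comm, ← dotProduct_mulVec, co]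

lemma cv_dot (m : Fin 3 → Ω) (u : ι → Ω) : cv h m ⬝ᵥ u = m ⬝ᵥ co h (vec u) := by
  rw [← dot_co, H17.Cm.vec_dot, dotProduct_comm, cv]

omit [Fintype ι] [DecidableEq ι] in
lemma cv_smul (a : Ω) (m : Fin 3 → Ω) : cv h (a • m) = a • cv h m := by
  rw [cv, smul_vecMul]; rfl

lemma co_cv (m : Fin 3 → Ω) : co h (vec (cv h m)) = (Em h).map (algebraMap C Ω) *ᵥ m := by
  rw [Em, Matrix.map_mul, Matrix.map_mul, ← mulVec_mulVec, ← mulVec_mulVec, transpose_map,
    mulVec_transpose, H17.Cm.J_map, H17.Cm.J_mulVec, co, cv]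

lemma Em_symm : (Em h).IsSymm := by
  rw [IsSymm, Em, transpose_mul, transpose_mul, transpose_transpose, H17.Cm.J_symm.eq,
    Matrix.mul_assoc]

omit [Fintype ι] [DecidableEq ι] in
lemma cone_symm {M : Matrix (Fin 3) (Fin 3) C} (hM : M.IsSymm) : (hᵀ * M * h).IsSymm := by
  rw [IsSymm, transpose_mul, transpose_mul, transpose_transpose, hM.eq, Matrix.mul_assoc]

lemma aeval_cone (M : Matrix (Fin 3) (Fin 3) C) (q : ι → Ω) :
    MvPolynomial.aeval q (quad (hᵀ * M * h)) =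
      (M.map (algebraMap C Ω) *ᵥ co h (hat q)) ⬝ᵥ co h (hat q) := by
  rw [H17.Cm.aeval_quad, mul_co, dot_co]

lemma grad_cone {M : Matrix (Fin 3) (Fin 3) C} (hM : M.IsSymm) (q : ι → Ω) :
    grad (quad (hᵀ * M * h)) q = (2 : Ω) • cv h (M.map (algebraMap C Ω) *ᵥ co h (hat q)) := by
  rw [H17.Cm.grad_quad (cone_symm hM), mul_co, cv]

lemma A0_yv (t : Ω) : A0 Ω *ᵥ yv t = -lv t t := by
  ext i; fin_cases i <;> simp [A0, yv, lv, mulVec, dotProduct, Fin.sum_univ_three] <;> ring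

lemma lv_yv (s t u : Ω) : lv s t ⬝ᵥ yv u = (u - s) * (u - t) := by
  simp [yv, lv, dotProduct, Fin.sum_univ_three]; ring

lemma plane {s t : Ω} (hst : s ≠ t) {V : Fin 3 → Ω} (hV : lv s t ⬝ᵥ V = 0) :
    V = (V 0 - lv s s ⬝ᵥ V / (t - s) ^ 2) • yv s + (lv s s ⬝ᵥ V / (t - s) ^ 2) • yv t := by
  have h0 : t - s ≠ 0 := sub_ne_zero.2 hst.symm
  simp only [lv, dotProduct, Fin.sum_univ_three, cons_val_zero, cons_val_one, cons_val] at hV ⊢
  ext i
  fin_cases i <;> simp [yv]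
  · field_simp; linear_combination -(t - s) * hV
  · field_simp; linear_combination -2 * s * (t - s) * hV

lemma poly_zero [IsAlgClosed C] {t : Ω} (ht : ¬Cst C t) {a b c d e : C}
    (h0 : algebraMap C Ω a + algebraMap C Ω b * t + algebraMap C Ω c * t ^ 2 +
      algebraMap C Ω d * t ^ 3 + algebraMap C Ω e * t ^ 4 = 0) :
    a = 0 ∧ b = 0 ∧ c = 0 ∧ d = 0 ∧ e = 0 := by
  have h1 := transcendental_iff.1 (H96A.Hk.tr_of_not_cst' ht) (Polynomial.C a +
    Polynomial.C b * Polynomial.X + Polynomial.C c * Polynomial.X ^ 2 +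
    Polynomial.C d * Polynomial.X ^ 3 + Polynomial.C e * Polynomial.X ^ 4) (by simpa using h0)
  have h2 := fun n => congrArg (Polynomial.coeff · n) h1
  simp only [Polynomial.coeff_add, Polynomial.coeff_C_mul, Polynomial.coeff_X_pow,
    Polynomial.coeff_X, Polynomial.coeff_C, Polynomial.coeff_zero] at h2
  exact ⟨by simpa using h2 0, by simpa using h2 1, by simpa using h2 2, by simpa using h2 3,
    by simpa using h2 4⟩

lemma dot_yv [IsAlgClosed C] {t : Ω} (ht : ¬Cst C t) {η : Fin 3 → C}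
    (h0 : (algebraMap C Ω ∘ η) ⬝ᵥ yv t = 0) : η = 0 := by
  obtain ⟨h1, h2, h3, -⟩ := poly_zero ht (a := η 0) (b := η 1) (c := η 2) (d := 0) (e := 0)
    (by simpa [yv, dotProduct, Fin.sum_univ_three] using h0)
  ext i; fin_cases i <;> assumption

lemma wf_ne [IsAlgClosed C] [CharZero C] {w : Fin 4 → C} (hw : Wok w) {t : Ω} (ht : ¬Cst C t) :
    Wf w t t ≠ 0 := fun h0 => by
  obtain ⟨h1, -, h2, -, h3⟩ := poly_zero ht (a := w 3) (b := 0) (c := w 1 + 4 * w 2) (d := 0)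
    (e := w 0) (by rw [← h0, Wf, map_add, map_mul, map_ofNat, map_zero]; ring)
  rcases hw with ⟨h, -⟩ | ⟨-, -, h, h'⟩ | ⟨-, -, -, h⟩
  exacts [h h3, h' (by simpa [h] using h2), h h1]

lemma NF.form {E : Matrix (Fin 3) (Fin 3) C} {w : Fin 4 → C} (hE : E.IsSymm) (N : NF E w)
    (m : Fin 3 → Ω) : E.map (algebraMap C Ω) *ᵥ m =
      ![algebraMap C Ω (w 0) * m 0 + algebraMap C Ω (E 0 2) * m 2, algebraMap C Ω (E 1 1) * m 1,
        algebraMap C Ω (E 0 2) * m 0 + algebraMap C Ω (w 3) * m 2] := by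
  ext i
  fin_cases i <;> simp [mulVec, dotProduct, Fin.sum_univ_three, N.e01, N.e12, N.w0, N.w3,
    hE.apply 0 1, hE.apply 0 2, hE.apply 1 2]

lemma NF.w1' {E : Matrix (Fin 3) (Fin 3) C} {w : Fin 4 → C} (N : NF E w) :
    algebraMap C Ω (w 1) + 4 * algebraMap C Ω (w 2) =
      2 * algebraMap C Ω (E 0 2) + 4 * algebraMap C Ω (E 1 1) := by
  simpa [map_ofNat] using congrArg (algebraMap C Ω) N.w1

lemma NF.chord {E : Matrix (Fin 3) (Fin 3) C} {w : Fin 4 → C} (hE : E.IsSymm) (N : NF E w)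
    (s t : Ω) : lv s t ⬝ᵥ E.map (algebraMap C Ω) *ᵥ lv s t =
      Wf w s t + algebraMap C Ω (E 1 1 - w 2) * (s - t) ^ 2 := by
  rw [N.form hE]
  simp [lv, Wf, dotProduct, Fin.sum_univ_three]
  linear_combination (-(s * t)) * N.w1' (Ω := Ω)

variable (h) in
/-- The edge stays away from the points at infinity of the quadric. -/
def SC (F : IntermediateField C Ω) (α β : Ω) : Prop :=
  (∃ η : Fin 3 → C, η ≠ 0 ∧ ∀ u : ι → Ω, (algebraMap C Ω ∘ η) ⬝ᵥ co h (vec u) = 0) ∨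
    ∀ f ∈ F, ∀ g ∈ F, f * α + g * β = 0 → f = 0 ∧ g = 0

variable (h) in
/-- The edge lies over the chord from `s` to `t` and the vertex lies over `t`. -/
def Sta (F : IntermediateField C Ω) (s t : Ω) (l : ι ⊕ ι → Ω) (τ : Ω) : Prop :=
  ∃ r α β : Ω, r ≠ 0 ∧ α ≠ 0 ∧ co h (hat (pt l τ)) = r • yv t ∧
    co h (vec (dir l)) = α • yv s + β • yv t ∧ SC h F α β

theorem step [IsAlgClosed C] [CharZero Ω] {w : Fin 4 → C} (N : NF (Em h) w)
    {F : IntermediateField C Ω} {Λ s t s' τ : Ω} {l : ι ⊕ ι → Ω} (q : Qr w Λ s t s') (hΛ : Λ ≠ 0)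
    (ht : ¬Cst C t) (hs' : ¬Cst C s') (sF : s ∈ F) (tF : t ∈ F) (sF' : s' ∈ F)
    (S : Sta h F s t l τ) {f : MvPolynomial ι C} (hf : f = quad (hᵀ * A0 C * h)) :
    MvPolynomial.aeval (pt l τ) f = 0 ∧ grad f (pt l τ) ⬝ᵥ grad f (pt l τ) ≠ 0 ∧
      grad f (pt l τ) ⬝ᵥ dir l ≠ 0 ∧ ∃ τ', τ ≠ τ' ∧
        Sta h F t s' (edge (pt l τ) (rf (grad f (pt l τ)) (dir l)) τ) τ' := by
  have : CharZero C := (algebraMap C Ω).charZero
  obtain ⟨r, α, β, r0, α0, hq, hu, sc⟩ := S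
  have n0 := wf_ne N.ok ht
  have hst : s - t ≠ 0 := fun e => by
    have := q.r
    rw [e, sub_eq_zero.1 e] at this
    exact mul_ne_zero hΛ n0 (by rw [← this]; ring)
  have hts : t ≠ s' := fun e => by
    have := H96A.Ht.qr_rel q
    rw [← e] at this
    exact mul_ne_zero hΛ n0 (by rw [← this]; ring)
  have hts' : s' - t ≠ 0 := sub_ne_zero.2 hts.symm
  have hg : grad f (pt l τ) = (-2 * r) • cv h (lv t t) := by
    rw [hf, grad_cone (A0_symm C), hq, A0_map, mulVec_smul, A0_yv, cv_smul, ← neg_one_smul Ω,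
      cv_smul, smul_smul, smul_smul]
    congr 1; ring
  have r2 : -2 * r ≠ 0 := mul_ne_zero (by norm_num) r0
  have hn : cv h (lv t t) ⬝ᵥ cv h (lv t t) = Wf w t t := by
    rw [cv_dot, co_cv, N.chord Em_symm]; ring
  have hnu : cv h (lv t t) ⬝ᵥ dir l = α * (s - t) ^ 2 := by
    rw [cv_dot, hu]; simp [lv_yv, sq]
  refine ⟨?_, ?_, ?_, ?_⟩
  · rw [hf, aeval_cone, hq, A0_map, mulVec_smul, A0_yv]; simp [lv_yv]
  · simp [hg, hn, r0, n0]
  · simp [hg, hnu, r0, α0, hst]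
  rw [hg, H17.Cm.smul_rf r2]
  obtain ⟨V, hV⟩ : ∃ V, V = co h (vec (rf (cv h (lv t t)) (dir l))) := ⟨_, rfl⟩
  have hV' : V = α • yv s + β • yv t - (2 * (α * (s - t) ^ 2) / Wf w t t) •
      (Em h).map (algebraMap C Ω) *ᵥ lv t t := by
    rw [hV, rf, H17.Cm.vec_sub, H17.Cm.vec_smul, co_sub, co_smul, co_cv, hu, hn, hnu]
  have k1 : lv t t ⬝ᵥ V = -(α * (s - t) ^ 2) := by
    rw [hV', dotProduct_sub, dotProduct_smul, N.chord Em_symm]
    simp [lv_yv]; field_simp; ring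
  have k2 : lv t s' ⬝ᵥ V = 0 := by
    have key : (s - s') * Wf w t t =
        2 * (s - t) * (lv t s' ⬝ᵥ (Em h).map (algebraMap C Ω) *ᵥ lv t t) := by
      apply mul_left_cancel₀ hΛ
      have a1 := q.s
      have a2 := H96A.Ht.qr_prod q
      rw [N.form Em_symm]
      simp only [lv, Wf, dotProduct, Fin.sum_univ_three, cons_val_zero, cons_val_one, cons_val]
      linear_combination (2 * t - s - s') * (-t * a1 + a2) + (s - t) * (s' - t) * a1 +
        (s - t) * Λ * (t ^ 2 + t * s') * N.w1' (Ω := Ω)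
    rw [hV', dotProduct_sub, dotProduct_smul]
    simp [lv_yv]; field_simp
    linear_combination α * (s - t) * key
  have k0 : V 0 = α + β - 2 * (α * (s - t) ^ 2) / Wf w t t *
      (algebraMap C Ω (w 0) * (t * t) + algebraMap C Ω (Em h 0 2)) := by
    rw [hV', N.form Em_symm]; simp [yv, lv]
  have k3 := plane hts k2
  obtain ⟨κ, hκ⟩ : ∃ κ, κ = -(s - t) ^ 2 / (s' - t) ^ 2 := ⟨_, rfl⟩
  obtain ⟨κ', hκ'⟩ : ∃ κ', κ' = 1 - 2 * (s - t) ^ 2 / Wf w t t *
      (algebraMap C Ω (w 0) * (t * t) + algebraMap C Ω (Em h 0 2)) - κ := ⟨_, rfl⟩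
  have κ0 : κ ≠ 0 := by simp [hκ, hst, hts']
  have κF : κ ∈ F := hκ ▸ div_mem (neg_mem (pow_mem (sub_mem sF tF) 2)) (pow_mem (sub_mem sF' tF) 2)
  have κF' : κ' ∈ F := by
    exact hκ' ▸ sub_mem (sub_mem (one_mem F) (mul_mem (div_mem (mul_mem (ofNat_mem F 2)
      (pow_mem (sub_mem sF tF) 2)) (H96A.Orb.wf_mem w tF tF)) (add_mem
        (mul_mem (F.algebraMap_mem _) (mul_mem tF tF)) (F.algebraMap_mem _)))) κF
  have k4 : V = (β + κ' * α) • yv t + (κ * α) • yv s' := by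
    rw [k3, k1, k0, hκ', hκ]
    congr 2 <;> ring
  have sc' : SC h F (β + κ' * α) (κ * α) := by
    refine sc.imp id fun hs f fF g gF e => ?_
    obtain ⟨e1, e2⟩ := hs (f * κ' + g * κ) (add_mem (mul_mem fF κF') (mul_mem gF κF)) f fF
      (by linear_combination e)
    exact ⟨e2, by simpa [e2, κ0] using e1⟩
  have α1 : β + κ' * α ≠ 0 := fun e => by
    rcases sc' with ⟨η, η0, hη⟩ | hs
    · have := hη (rf (cv h (lv t t)) (dir l))
      rw [← hV, k4, e] at this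
      exact η0 (dot_yv hs' (by simpa [κ0, α0] using this))
    · simpa using (hs 1 (one_mem F) 0 (zero_mem F) (by simp [e])).1
  refine ⟨τ - r / (β + κ' * α), fun e => div_ne_zero r0 α1 (by linear_combination e), -r / (β + κ' * α) * (κ * α), _, _,
    by simp [r0, α1, κ0, α0], α1, ?_, hV ▸ k4, sc'⟩
  have : pt (edge (pt l τ) (rf (cv h (lv t t)) (dir l)) τ) (τ - r / (β + κ' * α)) =
      pt l τ + (-r / (β + κ' * α)) • rf (cv h (lv t t)) (dir l) := by
    simp only [pt, H32.pos_edge, H32.dir_edge]; module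
  rw [this, H17.Cm.hat_add, H17.Cm.vec_smul, co_add, co_smul, ← hV, hq, k4]
  ext i
  simp; field_simp; ring

end Pool.Agent.MP_249f74_an.H10
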