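import Pool.Agent.MP_249f74_an.H10.S3b
import Pool.Agent.MP_249f74_an.H17.CmGen

/-!
The first edge: a generic tangent of a second cone with the same vertex.
-/

open Matrix hiding J vec

namespace Pool.Agent.MP_249f74_an.H10

open H96A (Cst)
open H17.Cm (hat vec J quad sp grad rf dv)
open H32 (pt dir pos edge)
open H42 (Cur ev)

variable {C Ω ι : Type} [Field C] [Field Ω] [Algebra C Ω] [Fintype ι] [DecidableEq ι]

section Der

variable {κ : Type} [Fintype κ] [DecidableEq κ] [CharZero Ω] {k : κ → Ω}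

lemma cur_der (hk : Cur C k) :
    ∃ n : κ → Ω, ∀ a, n ⬝ᵥ a = 0 → ∃ θ : Derivation C Ω Ω, dv θ k = a := by
  have : CharZero C := (algebraMap C Ω).charZero
  obtain ⟨π, hπ, hk⟩ := hk
  obtain ⟨j, hj⟩ : ∃ j, MvPolynomial.pderiv j π ≠ 0 := by
    by_contra! hn
    have h1 := MvPolynomial.totalDegree_eq_zero_iff_eq_C.1 (H17.Cm.td_zero_of_pderiv hn)
    have h2 := (hk π).2 dvd_rfl
    rw [h1, ev, MvPolynomial.aeval_C, map_eq_zero] at h2
    exact hπ.ne_zero (by rw [h1, h2, map_zero])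
  have h1 : grad π k j ≠ 0 := fun e => absurd (MvPolynomial.totalDegree_le_of_dvd_of_isDomain
    ((hk _).1 e) hj) (not_le.2 (H88.totalDegree_pderiv_lt hj))
  have h2 : AlgebraicIndependent C fun i : {i // i ≠ j} => k i := by
    refine algebraicIndependent_iff.2 fun P hP => by_contra fun P0 => hj ?_
    obtain ⟨H, hH⟩ := (hk (MvPolynomial.rename Subtype.val P)).1 (by
      rw [ev, MvPolynomial.aeval_rename]; exact hP)
    have h3 : MvPolynomial.degreeOf j (MvPolynomial.rename Subtype.val P) = 0 := by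
      by_contra e
      obtain ⟨i, -, hi⟩ := MvPolynomial.mem_vars_rename _ _
        (MvPolynomial.mem_vars_iff_degreeOf_ne_zero.2 e)
      exact i.2 hi
    have H0 : H ≠ 0 := fun e => P0 (MvPolynomial.rename_injective _ Subtype.val_injective
      (by rw [hH, e, mul_zero, map_zero]))
    rw [hH, MvPolynomial.degreeOf_mul_eq hπ.ne_zero H0] at h3
    exact MvPolynomial.pderiv_eq_zero_of_notMem_vars fun e =>
      MvPolynomial.mem_vars_iff_degreeOf_ne_zero.1 e (by omega)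
  refine ⟨grad π k, fun a ha => ?_⟩
  obtain ⟨θ, hθ⟩ := H97.der_exists_of_indep (L := Ω) (M := Ω) h2 fun i => a i
  have h3 : grad π k ⬝ᵥ (dv θ k - a) = 0 := by
    rw [dotProduct_sub, ha, H17.Cm.grad_dv ((hk π).2 dvd_rfl), sub_zero]
  rw [dotProduct, Finset.sum_eq_single j (fun i _ hi => by
    rw [Pi.sub_apply, show dv θ k i = a i from hθ ⟨i, hi⟩, sub_self, mul_zero]) (by simp)] at h3
  refine ⟨θ, funext fun i => ?_⟩
  by_cases hi : i = j
  · exact hi ▸ sub_eq_zero.1 ((mul_eq_zero.1 h3).resolve_left h1)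
  · exact hθ ⟨i, hi⟩

lemma cur_hyp (hk : Cur C k) {N : κ → Ω} (N0 : N ≠ 0)
    (hN : ∀ θ : Derivation C Ω Ω, N ⬝ᵥ dv θ k = 0) (a : κ → Ω) (ha : N ⬝ᵥ a = 0) :
    ∃ θ : Derivation C Ω Ω, dv θ k = a := by
  obtain ⟨n, hn⟩ := cur_der hk
  have h1 : ∀ a, n ⬝ᵥ a = 0 → N ⬝ᵥ a = 0 := fun a ha => by
    obtain ⟨θ, rfl⟩ := hn a ha
    exact hN θ
  obtain ⟨j, hj⟩ := Function.ne_iff.1 N0
  have h2 : n j ≠ 0 := fun e => hj (by simpa using h1 (Pi.single j 1) (by simpa using e))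
  have h3 := h1 (a - (n ⬝ᵥ a / n j) • Pi.single j 1) (by simp [h2])
  exact hn a (by simpa [ha, h2, show N j ≠ 0 from hj] using h3)

end Der

lemma cur_two [CharZero Ω] {k : ι ⊕ ι → Ω} (hk : Cur C k) {ν : ι → Ω}
    (h : ∀ θ : Derivation C Ω Ω, ν ⬝ᵥ dv θ (pos k) = 0 ∧ ν ⬝ᵥ dv θ (dir k) = 0) : ν = 0 := by
  by_contra h0
  obtain ⟨j, hj⟩ := Function.ne_iff.1 h0
  obtain ⟨θ, hθ⟩ := cur_hyp hk (N := Sum.elim ν 0) (fun e => hj (congrFun e (.inl j)))
    (fun θ => by simpa [dotProduct, dv, pos] using (h θ).1) (Sum.elim 0 (Pi.single j 1))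
    (by simp [dotProduct])
  have := (h θ).2
  rw [show dv θ (dir k) = Pi.single j 1 from funext fun i => congrFun hθ (.inr i)] at this
  exact hj (by simpa using this)

variable {h : Matrix (Fin 3) (Option ι) C} {R : Matrix (Option ι) (Fin 3) C}

omit [DecidableEq ι] in
lemma dv_co (θ : Derivation C Ω Ω) (X : Option ι → Ω) : dv θ (co h X) = co h (dv θ X) := by
  ext a; simp [dv, co, mulVec, dotProduct]

omit [Fintype ι] [DecidableEq ι] in
lemma dv_hat (θ : Derivation C Ω Ω) (x : ι → Ω) : dv θ (hat x) = vec (dv θ x) := by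
  ext (_ | i) <;> simp [dv, hat, vec]

omit [Fintype ι] [DecidableEq ι] in
lemma dv_vec (θ : Derivation C Ω Ω) (x : ι → Ω) : dv θ (vec x) = vec (dv θ x) := by
  ext (_ | i) <;> simp [dv, vec]

omit [DecidableEq ι] in
lemma cv_inj (hR : h * R = 1) {m : Fin 3 → Ω} {X : Option ι → Ω} (h0 : cv h m = 0)
    (h1 : X none = 1) (h2 : m ⬝ᵥ co h X = 0) : m = 0 := by
  have h3 : m ᵥ* h.map (algebraMap C Ω) = 0 := by
    have h4 : ∀ i, (m ᵥ* h.map (algebraMap C Ω)) (some i) = 0 := congrFun h0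
    rw [← dot_co, dotProduct, Fintype.sum_option] at h2
    ext (_ | i)
    · simpa [h1, h4] using h2
    · exact h4 i
  have := congrArg (· ᵥ* R.map (algebraMap C Ω)) h3
  simpa [vecMul_vecMul, ← Matrix.map_mul, hR] using this

lemma dich (hR : h * R = 1) :
    (∃ η : Fin 3 → C, η ≠ 0 ∧ ∀ u : ι → Ω, (algebraMap C Ω ∘ η) ⬝ᵥ co h (vec u) = 0) ∨
      ∃ z : Option ι → Ω, co h z = 0 ∧ z none = 1 := by
  obtain ⟨P, hP⟩ : ∃ P : Matrix (Option ι) (Option ι) C, P = 1 - R * h := ⟨_, rfl⟩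
  by_cases e : ∀ j, P none j = 0
  · have h1 : R none ᵥ* h = Pi.single none 1 := by
      ext j
      have := e j
      rw [hP, Matrix.sub_apply, sub_eq_zero, one_apply] at this
      rw [Pi.single_apply]
      exact this.symm.trans (by simp [eq_comm])
    refine Or.inl ⟨R none, fun e => by simpa [e] using congrFun h1 none, fun u => ?_⟩
    have h2 : (algebraMap C Ω ∘ R none) ᵥ* h.map (algebraMap C Ω) =
        algebraMap C Ω ∘ (R none ᵥ* h) := funext fun i => (RingHom.map_vecMul ..).symm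
    rw [← dot_co, h2, h1, H17.Cm.vec_dot]
    simp [sp, dotProduct]
  · push Not at e
    obtain ⟨j, hj⟩ := e
    refine Or.inr ⟨algebraMap C Ω ∘ ((P none j)⁻¹ • fun i => P i j), ?_,
      by simp only [Function.comp, Pi.smul_apply, smul_eq_mul, inv_mul_cancel₀ hj, map_one]⟩
    have h1 : h * P = 0 := by
      rw [hP, Matrix.mul_sub, ← Matrix.mul_assoc, hR, Matrix.mul_one, Matrix.one_mul, sub_self]
    ext a
    rw [co, ← RingHom.map_mulVec, mulVec_smul]
    have := congrFun (congrFun h1 a) j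
    rw [Matrix.mul_apply] at this
    simp only [Pi.smul_apply, mulVec, dotProduct, this]
    simp

/-- The polar form of the conic. -/
def a0 (X Y : Fin 3 → Ω) : Ω := 2 * X 1 * Y 1 - X 0 * Y 2 - X 2 * Y 0

/-- A conic that touches the standard conic twice. -/
def B0 (c : C) (l : Fin 3 → C) : Matrix (Fin 3) (Fin 3) C := c • A0 C + vecMulVec l l

/-- A linear form with constant coefficients. -/
def la (l : Fin 3 → C) (X : Fin 3 → Ω) : Ω := (algebraMap C Ω ∘ l) ⬝ᵥ X

/-- The polar form of the second conic. -/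
def bb (c : C) (l : Fin 3 → C) (X Y : Fin 3 → Ω) : Ω :=
  algebraMap C Ω c * a0 X Y + la l X * la l Y

lemma la_eq (l : Fin 3 → C) (X : Fin 3 → Ω) : la l X = algebraMap C Ω (l 0) * X 0 +
    algebraMap C Ω (l 1) * X 1 + algebraMap C Ω (l 2) * X 2 := by
  simp [la, dotProduct, Fin.sum_univ_three]

lemma A0_dot (X Y : Fin 3 → Ω) : (A0 Ω *ᵥ X) ⬝ᵥ Y = a0 X Y := by
  simp [A0, a0, mulVec, dotProduct, Fin.sum_univ_three]; ring

lemma B0_dot (c : C) (l : Fin 3 → C) (X Y : Fin 3 → Ω) :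
    ((B0 c l).map (algebraMap C Ω) *ᵥ X) ⬝ᵥ Y = bb c l X Y := by
  simp [A0, a0, B0, bb, la_eq, mulVec, dotProduct, Fin.sum_univ_three, vecMulVec_apply, map_ofNat]
  ring

lemma B0_symm (c : C) (l : Fin 3 → C) : (B0 c l).IsSymm := by
  ext i j; fin_cases i <;> fin_cases j <;> simp [A0, B0, vecMulVec_apply, mul_comm]

lemma B0_det (c : C) (l : Fin 3 → C) :
    (B0 c l).det = -c ^ 2 * (l 1 ^ 2 - 4 * l 0 * l 2 + 2 * c) := by
  simp [det_fin_three, A0, B0, vecMulVec_apply]; ring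

lemma dv_bb (θ : Derivation C Ω Ω) (c : C) (l : Fin 3 → C) (X Y : Fin 3 → Ω) :
    θ (bb c l X Y) = bb c l (dv θ X) Y + bb c l X (dv θ Y) := by
  have h2 : θ 2 = 0 := by simpa using θ.map_natCast 2
  simp [bb, a0, la_eq, dv, h2]; ring

variable (h) in
/-- The edge touches the second cone. -/
def Tg (c : C) (l : Fin 3 → C) (k : ι ⊕ ι → Ω) : Prop :=
  ∃ t, MvPolynomial.aeval (pt k t) (quad (hᵀ * B0 c l * h)) = 0 ∧
    grad (quad (hᵀ * B0 c l * h)) (pt k t) ⬝ᵥ dir k = 0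

lemma co_pt (k : ι ⊕ ι → Ω) (t : Ω) :
    co h (hat (pt k t)) = co h (hat (pos k)) + t • co h (vec (dir k)) := by
  rw [pt, H17.Cm.hat_add, H17.Cm.vec_smul, co_add, co_smul]

lemma Tg.disc [CharZero Ω] {c : C} {l : Fin 3 → C} {k : ι ⊕ ι → Ω} (T : Tg h c l k) (τ : Ω) :
    bb c l (co h (hat (pt k τ))) (co h (vec (dir k))) ^ 2 =
      bb c l (co h (hat (pt k τ))) (co h (hat (pt k τ))) *
        bb c l (co h (vec (dir k))) (co h (vec (dir k))) := by
  obtain ⟨t, h1, h2⟩ := T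
  rw [aeval_cone, B0_dot] at h1
  rw [grad_cone (B0_symm c l), smul_dotProduct, cv_dot, B0_dot, smul_eq_zero,
    or_iff_right two_ne_zero] at h2
  have e : co h (hat (pt k τ)) = co h (hat (pt k t)) + (τ - t) • co h (vec (dir k)) := by
    rw [co_pt, co_pt]; module
  rw [e]
  generalize co h (hat (pt k t)) = P at *
  generalize co h (vec (dir k)) = U at *
  have e1 : bb c l (P + (τ - t) • U) U = bb c l P U + (τ - t) * bb c l U U := by
    simp [bb, a0, la_eq]; ring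
  have e2 : bb c l (P + (τ - t) • U) (P + (τ - t) • U) =
      bb c l P P + 2 * (τ - t) * bb c l P U + (τ - t) ^ 2 * bb c l U U := by
    simp [bb, a0, la_eq]; ring
  rw [e1, e2, h1, h2]; ring

lemma Sta.tang [CharZero Ω] {F : IntermediateField C Ω} {s t τ : Ω} {k : ι ⊕ ι → Ω}
    (S : Sta h F s t k τ) (hst : s ≠ t) {c : C} (c0 : c ≠ 0) {l : Fin 3 → C} (T : Tg h c l k) :
    algebraMap C Ω c * (s - t) ^ 2 = 2 * la l (yv s) * la l (yv t) := by
  obtain ⟨r, α, β, r0, α0, hq, hu, -⟩ := S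
  have h1 := T.disc τ
  rw [hq, hu] at h1
  have h2 : r ^ 2 * α ^ 2 * algebraMap C Ω c * (s - t) ^ 2 ≠ 0 := by
    simp [r0, α0, c0, sub_ne_zero.2 hst]
  apply mul_left_cancel₀ h2
  simp only [bb, a0, la_eq, yv, Pi.add_apply, Pi.smul_apply, smul_eq_mul, cons_val_zero,
    cons_val_one, cons_val] at h1 ⊢
  linear_combination h1

lemma par [IsAlgClosed C] {Y : Fin 3 → Ω} (hY : a0 Y Y = 0) [CharZero Ω] :
    (∃ (y : Fin 3 → C) (r : Ω), Y = r • (algebraMap C Ω ∘ y)) ∨
      ∃ r t : Ω, r ≠ 0 ∧ ¬Cst C t ∧ Y = r • yv t := by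
  have h1 : Y 1 ^ 2 = Y 0 * Y 2 := by rw [a0] at hY; linear_combination (1 / 2 : Ω) * hY
  by_cases h0 : Y 0 = 0
  · refine Or.inl ⟨![0, 0, 1], Y 2, ?_⟩
    have : Y 1 = 0 := by simpa [h0] using h1
    ext i; fin_cases i <;> simp [h0, this]
  · have h2 : Y = Y 0 • yv (Y 1 / Y 0) := by
      ext i; fin_cases i <;> simp [yv] <;> field_simp
      linear_combination -h1
    by_cases hc : Cst C (Y 1 / Y 0)
    · obtain ⟨a, ha⟩ := hc
      refine Or.inl ⟨yv a, Y 0, h2.trans ?_⟩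
      ext i; fin_cases i <;> simp [yv, ha]
    · exact Or.inr ⟨Y 0, _, h0, hc, h2⟩

lemma ncp [IsAlgClosed C] [CharZero Ω] {c : C} (c0 : c ≠ 0) {l : Fin 3 → C} {Y Z : Fin 3 → Ω}
    (hY : a0 Y Y = 0) (hZ : a0 Z Z = 0) (h0 : a0 Y Z ≠ 0)
    (h1 : algebraMap C Ω c * a0 Y Z + 2 * la l Y * la l Z = 0)
    (h2 : ∀ m : Fin 3 → C, la m Y = 0 → la m Z = 0 → m = 0) :
    ∃ r t : Ω, r ≠ 0 ∧ ¬Cst C t ∧ Y = r • yv t := by
  refine (par hY).resolve_left ?_
  rintro ⟨y, r, rfl⟩
  rcases par (C := C) hZ with ⟨z, r', rfl⟩ | ⟨r', s, r0, hs, rfl⟩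
  · have h3 := h2 ![y 1 * z 2 - y 2 * z 1, y 2 * z 0 - y 0 * z 2, y 0 * z 1 - y 1 * z 0]
      (by simp [la_eq]; ring) (by simp [la_eq]; ring)
    have e := fun i => congrArg (algebraMap C Ω) (congrFun h3 i)
    have e0 := e 0
    have e1 := e 1
    have e2 := e 2
    refine h0 (pow_eq_zero_iff two_ne_zero |>.1 ?_)
    simp only [a0, Pi.smul_apply, Function.comp, smul_eq_mul, cons_val_zero, cons_val_one,
      map_sub, map_mul, Pi.zero_apply, map_zero] at e0 e1 hY ⊢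
    generalize algebraMap C Ω = φ at *
    linear_combination (2 * (r' * φ (z 1)) * (r' * φ (z 1)) - 2 * (r' * φ (z 0)) * (r' * φ (z 2))) * hY +
      r ^ 2 * r' ^ 2 * ((φ (y 2) * φ (z 0) - φ (y 0) * φ (z 2)) * e1 -
        4 * (φ (y 0) * φ (z 1) - φ (y 1) * φ (z 0)) * e0)
  · have r1 : r ≠ 0 := by
      rintro rfl
      simp [a0] at h0
    have h3 := dot_yv hs (η := ![-c * y 2 + 2 * (l ⬝ᵥ y) * l 0, 2 * c * y 1 + 2 * (l ⬝ᵥ y) * l 1,
      -c * y 0 + 2 * (l ⬝ᵥ y) * l 2]) (mul_left_cancel₀ (mul_ne_zero r1 r0) (by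
        simp [a0, la_eq, yv, dotProduct, Fin.sum_univ_three, map_ofNat, -mul_eq_zero] at h1 ⊢
        linear_combination h1))
    have e := fun i => congrArg (algebraMap C Ω) (congrFun h3 i)
    have e0 := e 0
    have e1 := e 1
    have e2 := e 2
    have h4 : la l (r • (algebraMap C Ω ∘ y)) ^ 2 = 0 := by
      simp only [a0, la_eq, Pi.smul_apply, Function.comp, smul_eq_mul, cons_val_zero, cons_val_one,
        cons_val, map_add, map_mul, map_neg, map_ofNat, Pi.zero_apply, map_zero, dotProduct,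
        Fin.sum_univ_three] at e0 e1 e2 hY ⊢
      generalize algebraMap C Ω = φ at *
      linear_combination r ^ 2 / 2 * (φ (y 0) * e0 + φ (y 1) * e1 + φ (y 2) * e2) - φ c / 2 * hY
    rw [pow_eq_zero_iff two_ne_zero |>.1 h4] at h1
    exact absurd (by simpa [c0] using h1) h0

lemma kill [CharZero Ω] {θ : Derivation C Ω Ω} {s t u r α β : Ω} {X U : Fin 3 → Ω} (hst : s ≠ t)
    (α0 : α ≠ 0) (r0 : r ≠ 0) (hY : X + u • U = r • yv t) (hU : U = α • yv s + β • yv t)
    (h1 : dv θ X = 0) (h2 : dv θ U = X) : ∀ f ∈ IntermediateField.adjoin C {s, t},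
      ∀ g ∈ IntermediateField.adjoin C {s, t}, f * α + g * β = 0 → f = 0 ∧ g = 0 := by
  have hX : X = r • yv t - u • (α • yv s + β • yv t) := by rw [← hY, hU]; module
  have l1 : lv s t ⬝ᵥ X = 0 := by simp [hX, lv_yv]
  have l2 : lv s t ⬝ᵥ U = 0 := by simp [hU, lv_yv]
  have d1 := H17.Cm.dv_dot θ (lv s t) X
  have d2 := H17.Cm.dv_dot θ (lv s t) U
  rw [l1, h1, map_zero, dotProduct_zero, add_zero] at d1
  rw [l2, h2, map_zero, l1, add_zero] at d2
  have d3 : dv θ (lv s t) ⬝ᵥ yv t = 0 := by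
    apply mul_left_cancel₀ r0
    rw [← smul_eq_mul, ← dotProduct_smul, ← hY, dotProduct_add, dotProduct_smul, ← d1, ← d2]
    simp
  have d4 : dv θ (lv s t) ⬝ᵥ yv s = 0 := by
    rw [hU, dotProduct_add, dotProduct_smul, dotProduct_smul, d3] at d2
    simpa [α0] using d2
  simp only [dv, lv, yv, dotProduct, Fin.sum_univ_three, cons_val_zero, cons_val_one, cons_val,
    Derivation.leibniz, map_neg, map_add, Derivation.map_one_eq_zero, smul_eq_mul] at d3 d4
  have h0 : s - t ≠ 0 := sub_ne_zero.2 hst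
  have e1 : θ s = 0 := mul_left_cancel₀ h0 (by linear_combination -d4)
  have e2 : θ t = 0 := mul_left_cancel₀ h0 (by linear_combination d3)
  have kl : ∀ f ∈ IntermediateField.adjoin C {s, t}, θ f = 0 := fun f hf =>
    H17.kill_cl (S := {s, t}) (by rintro _ (rfl | rfl) <;> assumption)
      (IntermediateField.adjoin_le_iff.2 (H88.subset_cl _) hf)
  have c0 := congrFun h2 0
  have c1 := congrFun h2 1
  simp [dv, hU, hX, yv, e1, e2] at c0 c1
  have e3 : θ α = -u * α := mul_left_cancel₀ h0 (by linear_combination c1 - t * c0)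
  have e4 : θ β = r - u * β := by linear_combination c0 - e3
  intro f hf g hg e
  have e5 := congrArg θ e
  simp only [map_add, Derivation.leibniz, kl f hf, kl g hg, e3, e4, smul_eq_mul, map_zero] at e5
  have e6 : g = 0 := mul_right_cancel₀ r0 (by linear_combination e5 + u * e)
  exact ⟨by simpa [e6, α0] using e, e6⟩

theorem init [IsAlgClosed C] [CharZero Ω] (hR : h * R = 1) {c : C} (c0 : c ≠ 0) {l : Fin 3 → C}
    (hd : (B0 c l).det ≠ 0) {k : ι ⊕ ι → Ω} (hk : Cur C k) (T : Tg h c l k) {u : Ω}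
    (h0 : MvPolynomial.aeval (pt k u) (quad (hᵀ * A0 C * h)) = 0)
    (h1 : grad (quad (hᵀ * A0 C * h)) (pt k u) ⬝ᵥ dir k ≠ 0) :
    ∃ s t, ¬Cst C s ∧ ¬Cst C t ∧ s ≠ t ∧ Sta h (IntermediateField.adjoin C {s, t}) s t k u := by
  rw [aeval_cone, A0_map, A0_dot] at h0
  rw [grad_cone (A0_symm C), smul_dotProduct, cv_dot, A0_map, A0_dot, smul_ne_zero_iff] at h1
  replace h1 := h1.2
  have h2 := T.disc u
  have h3 := T.disc 0
  have hXY := co_pt (h := h) k u
  rw [pt, zero_smul, add_zero] at h3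
  have nc : ∀ m : Fin 3 → C, la m (co h (hat (pos k))) = 0 → la m (co h (vec (dir k))) = 0 →
      m = 0 := fun m e1 e2 => by
    have key : ∀ (θ : Derivation C Ω Ω) (Z : Option ι → Ω), la m (co h Z) = 0 →
        (algebraMap C Ω ∘ m) ⬝ᵥ co h (dv θ Z) = 0 := fun θ Z e => by
      have := congrArg θ e
      rw [la, H17.Cm.dv_dot, dv_co, map_zero, show dv θ (algebraMap C Ω ∘ m) = 0 from
        funext fun i => θ.map_algebraMap _] at this
      simpa using this
    have := cv_inj hR (cur_two hk (ν := cv h (algebraMap C Ω ∘ m)) fun θ =>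
      ⟨by rw [cv_dot, ← dv_hat]; exact key θ _ e1, by rw [cv_dot, ← dv_vec]; exact key θ _ e2⟩)
      (X := hat (pos k)) rfl e1
    exact funext fun i => by simpa using congrFun this i
  obtain ⟨Y, hY⟩ : ∃ Y, Y = co h (hat (pt k u)) := ⟨_, rfl⟩
  obtain ⟨U, hU⟩ : ∃ U, U = co h (vec (dir k)) := ⟨_, rfl⟩
  obtain ⟨X, hX⟩ : ∃ X, X = co h (hat (pos k)) := ⟨_, rfl⟩
  rw [← hY, ← hU] at h1 h2 hXY
  rw [← hX, ← hU] at h3 nc
  rw [← hX] at hXY
  rw [← hY] at h0
  obtain ⟨Z, hZ⟩ : ∃ Z, Z = a0 U U • Y - (2 * a0 Y U) • U := ⟨_, rfl⟩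
  have z1 : a0 Y Z = -2 * a0 Y U ^ 2 := by
    have : a0 Y Z = a0 U U * a0 Y Y - 2 * a0 Y U ^ 2 := by simp [hZ, a0]; ring
    rw [this, h0]; ring
  have z0 : a0 Z Z = 0 := by
    have : a0 Z Z = a0 U U ^ 2 * a0 Y Y := by simp [hZ, a0]; ring
    rw [this, h0, mul_zero]
  have z2 : a0 Y Z ≠ 0 := by simp [z1, h1]
  have z3 : la l Z = a0 U U * la l Y - 2 * a0 Y U * la l U := by simp [hZ, la]
  have z4 : algebraMap C Ω c * a0 Y Z + 2 * la l Y * la l Z = 0 := by
    apply mul_left_cancel₀ ((_root_.map_ne_zero (algebraMap C Ω)).2 c0)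
    simp only [bb, h0] at h2
    rw [z1, z3]
    linear_combination -2 * h2
  have z5 : ∀ m : Fin 3 → C, la m Y = 0 → la m Z = 0 → m = 0 := fun m e1 e2 => by
    have e3 : la m U = 0 := by
      rw [la] at e1
      simpa [la, hZ, e1, h1] using e2
    refine nc m ?_ e3
    rw [la] at e3
    simpa [la, hXY, e3] using e1
  have sy : a0 Z Y = a0 Y Z := by simp [a0]; ring
  obtain ⟨r, t, r0, ht, eY⟩ := ncp c0 h0 z0 z2 z4 z5
  obtain ⟨r', s, r1, hs, eZ⟩ := ncp c0 z0 h0 (sy ▸ z2) (l := l) (by rw [sy]; linear_combination z4)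
    fun m e1 e2 => z5 m e2 e1
  have hst : s ≠ t := by
    rintro rfl
    exact z2 (by simp [eY, eZ, a0, yv]; ring)
  have eU : U = (-r' / (2 * a0 Y U)) • yv s + (a0 U U * r / (2 * a0 Y U)) • yv t := by
    have : (2 * a0 Y U) • U = a0 U U • r • yv t - r' • yv s := by rw [← eY, ← eZ, hZ]; module
    ext i
    have := congrFun this i
    simp only [Pi.smul_apply, Pi.sub_apply, Pi.add_apply, smul_eq_mul] at this ⊢
    field_simp
    linear_combination this
  have α0 : -r' / (2 * a0 Y U) ≠ 0 := by simp [r1, h1]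
  refine ⟨s, t, hs, ht, hst, r, _, _, r0, α0, hY.symm.trans eY, hU.symm.trans eU,
    (dich hR).imp id ?_⟩
  rintro ⟨z, hz, z1⟩
  have lt : la l (yv t) ≠ 0 := fun e => by
    rw [eY, la, dotProduct_smul, ← la, e, ← eY] at z4
    exact z2 (by simpa [c0] using z4)
  have inj : ∀ v : Fin 3 → Ω, cv h ((B0 c l).map (algebraMap C Ω) *ᵥ v) = 0 → v = 0 :=
    fun v e => eq_zero_of_mulVec_eq_zero (M := (B0 c l).map (algebraMap C Ω))
      (by rw [← RingHom.mapMatrix_apply, ← RingHom.map_det]; simpa using hd)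
      (cv_inj hR e z1 (by simp [hz]))
  obtain ⟨θ, hθ⟩ := cur_hyp hk (N := Sum.elim
      (cv h ((B0 c l).map (algebraMap C Ω) *ᵥ (bb c l X U • U - bb c l U U • X)))
      (cv h ((B0 c l).map (algebraMap C Ω) *ᵥ (bb c l X U • X - bb c l X X • U))))
    (fun e => by
      have e1 := inj _ (funext fun i => congrFun e (.inl i))
      have e2 := inj _ (funext fun i => congrFun e (.inr i))
      have e3 : bb c l Y Y • U = bb c l Y U • Y := by
        have f1 : bb c l Y Y = bb c l X X + 2 * u * bb c l X U + u ^ 2 * bb c l U U := by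
          simp [hXY, bb, a0, la_eq]; ring
        have f2 : bb c l Y U = bb c l X U + u * bb c l U U := by
          simp [hXY, bb, a0, la_eq]; ring
        rw [f1, f2, hXY]
        linear_combination (norm := module) u • e1 - e2
      have e4 := congrArg (a0 Y) e3
      have f3 : ∀ a V, a0 Y (a • V) = a * a0 Y V := fun a V => by simp [a0]; ring
      rw [f3, f3, h0, bb, h0, eY, la, dotProduct_smul, ← la, ← eY] at e4
      simp [h1, r0, lt] at e4)
    (fun θ => by
      have e := congrArg θ h3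
      rw [sq, Derivation.leibniz, Derivation.leibniz, dv_bb, dv_bb, dv_bb] at e
      rw [show dv θ k = Sum.elim (dv θ (pos k)) (dv θ (dir k)) from by ext (i | i) <;> rfl,
        sumElim_dotProduct_sumElim, cv_dot, cv_dot, ← dv_hat, ← dv_vec, ← dv_co, ← dv_co, ← hX,
        ← hU, B0_dot, B0_dot]
      simp only [bb, a0, la_eq, Pi.smul_apply, Pi.sub_apply, smul_eq_mul] at e ⊢
      linear_combination (1 / 2 : Ω) * e)
    (Sum.elim 0 (pos k - sp z)) (by
      have : vec (pos k - sp z) = hat (pos k) - z := by ext (_ | i) <;> simp [vec, hat, sp, z1]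
      rw [sumElim_dotProduct_sumElim, dotProduct_zero, cv_dot, this, co_sub, hz, ← hX, B0_dot]
      simp [bb, a0, la_eq]; ring)
  refine kill (θ := θ) hst α0 r0 (hXY ▸ eY) eU ?_ ?_
  · rw [hX, dv_co, dv_hat, show dv θ (pos k) = 0 from funext fun i => congrFun hθ (.inl i)]
    ext i; simp [co, mulVec, dotProduct, vec]
  · have : vec (pos k - sp z) = hat (pos k) - z := by ext (_ | i) <;> simp [vec, hat, sp, z1]
    rw [hU, dv_co, dv_vec, show dv θ (dir k) = pos k - sp z from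
      funext fun i => congrFun hθ (.inr i), this, co_sub, hz, sub_zero, hX]

end Pool.Agent.MP_249f74_an.H10
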