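import Pool.Agent.MP_249f74_an.H10.S3c

/-!
The orbit of a tangent of a second cone with the same vertex.
-/

open Matrix hiding J vec
open IntermediateField

namespace Pool.Agent.MP_249f74_an.H10

open H96A (Cst Wf Qr ht)
open H17.Cm (hat vec J quad sp grad rf dv Conf)
open H32 (pt dir pos edge)
open H42 (Cur ev)

variable {C Ω ι : Type} [Field C] [Field Ω] [Algebra C Ω] [Fintype ι] [DecidableEq ι]

lemma mob [IsAlgClosed C] [CharZero Ω] {s t : Ω} (hst : s ≠ t) {c : C} (c0 : c ≠ 0) {l : Fin 3 → C}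
    (h : algebraMap C Ω c * (s - t) ^ 2 = 2 * la l (yv s) * la l (yv t)) :
    ∃ μ : C, μ ^ 2 = l 1 ^ 2 - 4 * l 0 * l 2 + 2 * c ∧
      algebraMap C Ω (μ - l 1) - 2 * algebraMap C Ω (l 2) * t ≠ 0 ∧
      s * (algebraMap C Ω (μ - l 1) - 2 * algebraMap C Ω (l 2) * t) =
        algebraMap C Ω (μ + l 1) * t + 2 * algebraMap C Ω (l 0) := by
  have key : ∃ μ : C, μ ^ 2 = l 1 ^ 2 - 4 * l 0 * l 2 + 2 * c ∧
      s * (algebraMap C Ω (μ - l 1) - 2 * algebraMap C Ω (l 2) * t) =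
        algebraMap C Ω (μ + l 1) * t + 2 * algebraMap C Ω (l 0) := by
    obtain ⟨μ, hμ⟩ := IsAlgClosed.exists_pow_nat_eq (l 1 ^ 2 - 4 * l 0 * l 2 + 2 * c) two_pos
    have h1 := congrArg (algebraMap C Ω) hμ
    simp only [map_pow, map_add, map_sub, map_mul, map_ofNat] at h1
    simp only [la_eq, yv, cons_val_zero, cons_val_one, cons_val] at h
    have h2 : (algebraMap C Ω μ * (s - t)) ^ 2 = ((algebraMap C Ω (l 1) +
        2 * algebraMap C Ω (l 2) * t) * (s - t) + 2 * (algebraMap C Ω (l 0) +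
        algebraMap C Ω (l 1) * t + algebraMap C Ω (l 2) * t ^ 2)) ^ 2 := by
      linear_combination (s - t) ^ 2 * h1 + 2 * h
    rcases sq_eq_sq_iff_eq_or_eq_neg.1 h2 with e | e
    · exact ⟨μ, hμ, by rw [map_sub, map_add]; linear_combination e⟩
    · exact ⟨-μ, by rw [neg_sq, hμ], by rw [map_sub, map_add, map_neg]; linear_combination -e⟩
  obtain ⟨μ, h1, h2⟩ := key
  refine ⟨μ, h1, fun e => ?_, h2⟩
  have h3 : la l (yv t) = 0 := by
    rw [map_sub] at e h2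
    rw [map_add] at h2
    simp only [la_eq, yv, cons_val_zero, cons_val_one, cons_val]
    linear_combination (-1 / 2 : Ω) * h2 + (s - t) / 2 * e
  rw [h3] at h
  simp [c0, sub_ne_zero.2 hst] at h

lemma adj_eq [IsAlgClosed C] [CharZero Ω] {s t : Ω} (hst : s ≠ t) {c : C} (c0 : c ≠ 0)
    {l : Fin 3 → C} (h : algebraMap C Ω c * (s - t) ^ 2 = 2 * la l (yv s) * la l (yv t)) :
    adjoin C {s, t} = adjoin C {t} := by
  obtain ⟨μ, -, h1, h2⟩ := mob hst c0 h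
  have ht := mem_adjoin_simple_self C t
  have h3 := (adjoin C {t}).algebraMap_mem
  have h4 := ofNat_mem (adjoin C {t}) 2
  refine le_antisymm (adjoin_le_iff.2 ?_) (adjoin.mono _ _ _ (by simp))
  rintro _ (rfl | rfl)
  · rw [(eq_div_iff h1).2 h2]
    exact div_mem (add_mem (mul_mem (h3 _) ht) (mul_mem h4 (h3 _)))
      (sub_mem (h3 _) (mul_mem (mul_mem h4 (h3 _)) ht))
  · exact ht

lemma level [IsAlgClosed C] [CharZero Ω] {s t : Ω} (hst : s ≠ t) (ht : ¬Cst C t) {c : C}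
    (c0 : c ≠ 0) {l : Fin 3 → C} (hd : (B0 c l).det ≠ 0)
    (h : algebraMap C Ω c * (s - t) ^ 2 = 2 * la l (yv s) * la l (yv t))
    {G : Matrix (Fin 3) (Fin 3) C} (hG : G.IsSymm)
    (h0 : lv s t ⬝ᵥ G.map (algebraMap C Ω) *ᵥ lv s t = 0) : ∃ γ : C, G * B0 c l = γ • 1 := by
  have : CharZero C := (algebraMap C Ω).charZero
  obtain ⟨μ, h1, h2, h3⟩ := mob hst c0 h
  obtain ⟨M, hM⟩ : ∃ M : Matrix (Fin 3) (Fin 3) C,
    M = !![0, -2 * l 0, μ - l 1; 2 * l 0, -2 * μ, -2 * l 2; μ + l 1, 2 * l 2, 0] := ⟨_, rfl⟩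
  have e1 : yv t ᵥ* M.map (algebraMap C Ω) =
      (algebraMap C Ω (μ - l 1) - 2 * algebraMap C Ω (l 2) * t) • lv s t := by
    rw [map_sub] at h3 ⊢
    rw [map_add] at h3
    ext i
    fin_cases i <;> simp [hM, yv, lv, vecMul, dotProduct, Fin.sum_univ_three, map_ofNat]
    · linear_combination -t * h3
    · linear_combination h3
    · ring
  have e2 : yv t ⬝ᵥ (M * G * Mᵀ).map (algebraMap C Ω) *ᵥ yv t = 0 := by
    rw [Matrix.map_mul, Matrix.map_mul, ← mulVec_mulVec, ← mulVec_mulVec, transpose_map,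
      mulVec_transpose, dotProduct_mulVec, e1, mulVec_smul, smul_dotProduct, dotProduct_smul, h0]
    simp
  have e3 : (M * G * Mᵀ).IsSymm := by
    rw [IsSymm, transpose_mul, transpose_mul, transpose_transpose, hG.eq, Matrix.mul_assoc]
  obtain ⟨H, hH⟩ : ∃ H, H = M * G * Mᵀ := ⟨_, rfl⟩
  rw [← hH] at e2 e3
  obtain ⟨a0, a1, a2, a3, a4⟩ := poly_zero ht (a := H 0 0) (b := 2 * H 0 1)
    (c := H 1 1 + 2 * H 0 2) (d := 2 * H 1 2) (e := H 2 2) (by
      simp [yv, mulVec, dotProduct, Fin.sum_univ_three, e3.apply 0 1, e3.apply 0 2,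
        e3.apply 1 2, map_ofNat] at e2 ⊢
      linear_combination e2)
  have e4 : H = (H 1 1 / 2) • A0 C := by
    have b1 : H 0 1 = 0 := by simpa using a1
    have b3 : H 1 2 = 0 := by simpa using a3
    have b2 : H 0 2 = -(H 1 1 / 2) := by linear_combination (1 / 2 : C) * a2
    ext i j
    fin_cases i <;> fin_cases j <;>
      simp [A0, a0, a4, b1, b2, b3, e3.apply 0 1, e3.apply 0 2, e3.apply 1 2]
  have e5 : Mᵀ * D0 C * M = (4 : C) • B0 c l := by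
    ext i j
    simp only [Matrix.mul_apply, Fin.sum_univ_three, transpose_apply]
    fin_cases i <;> fin_cases j <;> simp [hM, D0, B0, A0, vecMulVec_apply] <;>
      first | ring1 | linear_combination 4 * h1 | linear_combination -2 * h1
  have e6 : IsUnit M := (isUnit_iff_isUnit_det M).2 (Ne.isUnit fun e => hd (by
    have := congrArg det e5
    rw [det_mul, e, mul_zero, det_smul] at this
    simpa using this))
  refine ⟨H 1 1 / 4, e6.mul_left_cancel ?_⟩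
  have e7 : M * (G * ((4 : C) • B0 c l)) = H * D0 C * M := by
    rw [← e5, hH]; simp only [Matrix.mul_assoc]
  rw [e4, Matrix.smul_mul, A0_D0] at e7
  simp only [Matrix.mul_smul, Matrix.smul_mul, Matrix.one_mul, Matrix.mul_one, smul_smul] at e7 ⊢
  rw [show H 1 1 / 4 = (1 / 4 : C) * (H 1 1 / 2 * 2) by ring, ← smul_smul, ← e7, smul_smul]
  norm_num

omit [DecidableEq ι] in
lemma quad_smul (γ : C) (B : Matrix (Option ι) (Option ι) C) : quad (γ • B) = γ • quad B := by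
  simp only [quad, dotProduct, mulVec, map_apply, Matrix.smul_apply, smul_eq_mul, map_mul,
    MvPolynomial.smul_eq_C_mul, Finset.mul_sum]
  exact Finset.sum_congr rfl fun _ _ => Finset.sum_congr rfl fun _ _ => by ring

lemma iso {B : Matrix (Option ι) (Option ι) C} (hB : B.IsSymm) {γ : C}
    (h : B * J ι C * B = γ • B) :
    quad B ∣ ∑ i, MvPolynomial.pderiv i (quad B) * MvPolynomial.pderiv i (quad B) := by
  refine ⟨MvPolynomial.C (4 * γ), ?_⟩
  have h1 : quad (B * J ι C * B) = sp (B.map MvPolynomial.C *ᵥ hat MvPolynomial.X) ⬝ᵥ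
      sp (B.map MvPolynomial.C *ᵥ hat (MvPolynomial.X : ι → MvPolynomial ι C)) := by
    rw [quad, Matrix.map_mul, Matrix.map_mul, ← mulVec_mulVec, ← mulVec_mulVec,
      H17.Cm.symm_dot (hB.map _), H17.Cm.J_map, H17.Cm.J_mulVec, H17.Cm.vec_dot]
  rw [h, quad_smul, MvPolynomial.smul_eq_C_mul] at h1
  simp only [H17.Cm.pderiv_quad hB, map_mul, map_ofNat]
  rw [mul_comm, mul_assoc, h1, dotProduct, Finset.mul_sum]
  exact Finset.sum_congr rfl fun i _ => by simp [sp]; ring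

variable {h : Matrix (Fin 3) (Option ι) C} {R : Matrix (Option ι) (Fin 3) C}

lemma cone_J (M M' : Matrix (Fin 3) (Fin 3) C) :
    hᵀ * M * h * J ι C * (hᵀ * M' * h) = hᵀ * (M * Em h * M') * h := by
  simp only [Em, Matrix.mul_assoc]

lemma conf [CharZero C] {c ν γ : C} {l : Fin 3 → C} (hd : (B0 c l).det ≠ 0)
    (e : (Em h - ν • D0 C) * B0 c l = γ • 1) {f g : MvPolynomial ι C}
    (hf : f = quad (hᵀ * A0 C * h)) (hg : g = quad (hᵀ * B0 c l * h))
    (df : f.totalDegree = 2) (dg : g.totalDegree = 2)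
    (nf : ¬f ∣ ∑ i, MvPolynomial.pderiv i f * MvPolynomial.pderiv i f)
    (ng : ¬g ∣ ∑ i, MvPolynomial.pderiv i g * MvPolynomial.pderiv i g) : Conf f g := by
  have sA := cone_symm (h := h) (A0_symm C)
  have sB := cone_symm (h := h) (B0_symm c l)
  have ν0 : ν ≠ 0 := by
    rintro rfl
    refine ng (hg ▸ iso sB (γ := γ) ?_)
    rw [zero_smul, sub_zero] at e
    rw [cone_J, Matrix.mul_assoc (B0 c l), e]; simp
  have γ0 : γ ≠ 0 := by
    rintro rfl
    refine nf (hf ▸ iso sA (γ := 2 * ν) ?_)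
    have : Em h = ν • D0 C := sub_eq_zero.1
      (((isUnit_iff_isUnit_det _).2 hd.isUnit).mul_right_cancel (by simpa using e))
    rw [cone_J, this, Matrix.mul_smul, A0_D0]
    simp [smul_smul, mul_comm]
  refine ⟨df, dg, (2 * ν)⁻¹ • (hᵀ * A0 C * h), (-γ⁻¹) • (hᵀ * B0 c l * h), 2 * ν, -γ, sA.smul _,
    sB.smul _, by rw [quad_smul, smul_smul, mul_inv_cancel₀ (by simpa), one_smul, hf],
    by rw [quad_smul, smul_smul, neg_mul_neg, mul_inv_cancel₀ γ0, one_smul, hg], ?_⟩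
  have e1 : A0 C * Em h * B0 c l = γ • A0 C + (2 * ν) • B0 c l := by
    rw [Matrix.sub_mul, sub_eq_iff_eq_add] at e
    rw [Matrix.mul_assoc, e, Matrix.mul_add, Matrix.smul_mul, Matrix.mul_smul, Matrix.mul_smul,
      ← Matrix.mul_assoc, A0_D0]
    simp [smul_smul, mul_comm]
  rw [Matrix.smul_mul, Matrix.smul_mul, Matrix.mul_smul, cone_J, e1]
  simp only [Matrix.mul_add, Matrix.add_mul, Matrix.mul_smul, Matrix.smul_mul]
  match_scalars <;> field_simp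

lemma exists_seq {X : Type} {P : ℕ → X → Prop} {Q : X → X → Prop} {x : X} (h0 : P 0 x)
    (h : ∀ n x, P n x → ∃ y, P (n + 1) y ∧ Q x y) :
    ∃ f : ℕ → X, f 0 = x ∧ ∀ n, P n (f n) ∧ Q (f n) (f (n + 1)) := by
  choose g g1 g2 using h
  let f : ∀ n, {x // P n x} := fun n => Nat.rec ⟨x, h0⟩ (fun n y => ⟨g n y.1 y.2, g1 ..⟩) n
  exact ⟨fun n => (f n).1, rfl, fun n => ⟨(f n).2, g2 n _ (f n).2⟩⟩

theorem core [IsAlgClosed C] [CharZero Ω] {w : Fin 4 → C} (N : NF (Em h) w) (hR : h * R = 1)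
    {c : C} (c0 : c ≠ 0) {l : Fin 3 → C} (hd : (B0 c l).det ≠ 0) {f g : MvPolynomial ι C}
    (hf : f = quad (hᵀ * A0 C * h)) (hg : g = quad (hᵀ * B0 c l * h))
    (df : f.totalDegree = 2) (dg : g.totalDegree = 2)
    (nf : ¬f ∣ ∑ i, MvPolynomial.pderiv i f * MvPolynomial.pderiv i f)
    (ng : ¬g ∣ ∑ i, MvPolynomial.pderiv i g * MvPolynomial.pderiv i g) (nc : ¬Conf f g)
    {k : ι ⊕ ι → Ω} (hk : Cur C k) (T : Tg h c l k) {u : Ω}
    (h0 : MvPolynomial.aeval (pt k u) f = 0) (h1 : grad f (pt k u) ⬝ᵥ dir k ≠ 0) :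
    ∃ (K : ℕ → ι ⊕ ι → Ω) (τ : ℕ → Ω), K 0 = k ∧ τ 0 = u ∧
      (∀ n, MvPolynomial.aeval (pt (K n) (τ n)) f = 0 ∧
        grad f (pt (K n) (τ n)) ⬝ᵥ grad f (pt (K n) (τ n)) ≠ 0 ∧
        grad f (pt (K n) (τ n)) ⬝ᵥ dir (K n) ≠ 0 ∧ τ n ≠ τ (n + 1) ∧
        K (n + 1) = edge (pt (K n) (τ n)) (rf (grad f (pt (K n) (τ n))) (dir (K n))) (τ n)) ∧
      ∀ i, 1 ≤ i → ∀ c' l', c' ≠ 0 → ¬Tg h c' l' (K i) := by
  have : CharZero C := (algebraMap C Ω).charZero
  obtain ⟨s, t, hs, ht', hst, S⟩ := init hR c0 hd hk T (hf ▸ h0) (hf ▸ h1)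
  have tg := S.tang hst c0 T
  have lev : ∀ ν : C, Wf w s t ≠ algebraMap C Ω ν * (s - t) ^ 2 := fun ν e => by
    obtain ⟨γ, hγ⟩ := level hst ht' c0 hd tg (G := Em h - (ν + (Em h 1 1 - w 2)) • D0 C)
      (Em_symm.sub (IsSymm.smul (by
        ext i j; fin_cases i <;> fin_cases j <;> simp [D0]) _)) (by
        rw [Matrix.map_sub _ (map_sub _), sub_mulVec, dotProduct_sub, N.chord Em_symm, e]
        simp [D0, lv, mulVec, dotProduct, Fin.sum_univ_three, map_ofNat]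
        ring)
    exact nc (conf hd hγ hf hg df dg nf ng)
  have W0 : Wf w s t ≠ 0 := by simpa using lev 0
  have st0 : s - t ≠ 0 := sub_ne_zero.2 hst
  obtain ⟨Λ, hΛ⟩ : ∃ Λ, (s - t) ^ 2 = Λ * Wf w s t := ⟨_, (div_mul_cancel₀ _ W0).symm⟩
  have Λ0 : Λ ≠ 0 := by rintro rfl; simp [st0] at hΛ
  have nΛ : ¬Cst C Λ := by
    rintro ⟨a, rfl⟩
    exact lev a⁻¹ (by rw [hΛ, map_inv₀, inv_mul_cancel_left₀ Λ0])
  have sF : s ∈ adjoin C {s, t} := subset_adjoin _ _ (by simp)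
  have tF : t ∈ adjoin C {s, t} := subset_adjoin _ _ (by simp)
  have ΛF := H96A.Orb.lam_mem hΛ W0 sF tF
  have F1 := adj_eq hst c0 tg
  have F2 : adjoin C {s, t} = adjoin C {s} := by
    rw [Set.pair_comm]
    exact adj_eq hst.symm c0 (l := l) (by linear_combination tg)
  have cl1 : adjoin C {t} ≤ H88.cl C {t} := adjoin_le_iff.2 (H88.subset_cl _)
  have cl2 : t ∈ H88.cl C {Λ} := H96.mem_cl_of_kil fun θ hθ => by_contra fun e =>
    H96A.Hk.tr_of_not_cst nΛ (H96.mem_cl_of_der (t := t) (δ := θ) (by simpa using cl1 (F1 ▸ ΛF))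
      (by simp [H96.Kil]) (hθ Λ rfl) e)
  obtain ⟨v, v0, v1, hv, -⟩ := H96A.ht' H96A.hk w {s, t} Λ s t N.ok (Set.toFinite _)
    (fun a ha => H17.cl_le (by simpa using cl2) (cl1 (F1 ▸ subset_adjoin _ _ ha))) ΛF sF tF nΛ hs ht'
    (by rw [ht, ht, ← F1, ← F2]) hΛ
  have ne : ∀ j, v j ≠ v (j + 1) := fun j e => by
    have := (hv j).2.1.r
    rw [← e] at this
    exact mul_ne_zero Λ0 (wf_ne N.ok (hv j).1) (by rw [← this]; ring)
  have W1 : ∀ j, Wf w (v j) (v (j + 1)) ≠ 0 := fun j e => by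
    have := (hv j).2.1.r
    rw [e] at this
    exact ne j (sub_eq_zero.1 (by simpa using this))
  have FF : ∀ j, adjoin C {v j, v (j + 1)} = adjoin C {s, t} := fun j => by
    induction j with
    | zero => rw [v0, v1]
    | succ j ih => rw [← ih]; exact H96A.Orb.fld_succ (hv j).2.1 (W1 j) (hv (j + 1)).2.1.r (W1 _)
  have vF : ∀ j, v j ∈ adjoin C {s, t} := fun j => FF j ▸ subset_adjoin _ _ (by simp)
  obtain ⟨z, z0, hz⟩ := exists_seq (x := (k, u))
    (P := fun n z => Sta h (adjoin C {s, t}) (v n) (v (n + 1)) z.1 z.2)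
    (Q := fun z z' => MvPolynomial.aeval (pt z.1 z.2) f = 0 ∧
      grad f (pt z.1 z.2) ⬝ᵥ grad f (pt z.1 z.2) ≠ 0 ∧ grad f (pt z.1 z.2) ⬝ᵥ dir z.1 ≠ 0 ∧
      z.2 ≠ z'.2 ∧ z'.1 = edge (pt z.1 z.2) (rf (grad f (pt z.1 z.2)) (dir z.1)) z.2)
    (by rwa [v0, v1]) fun n z hz => by
      obtain ⟨a1, a2, a3, τ, a4, a5⟩ := step N (hv n).2.1 Λ0 (hv (n + 1)).1 (hv (n + 2)).1 (vF _)
        (vF _) (vF _) hz hf
      exact ⟨(_, τ), a5, a1, a2, a3, a4, rfl⟩
  refine ⟨fun n => (z n).1, fun n => (z n).2, congrArg Prod.fst z0, congrArg Prod.snd z0,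
    fun n => (hz n).2, fun i hi c' l' c1 T' => ?_⟩
  obtain ⟨j, rfl⟩ : ∃ j, i = j + 1 := ⟨i - 1, by omega⟩
  have := (hv j).2.2.2
  rw [← FF (j + 1), adj_eq (ne _) c1 ((hz _).1.tang (ne _) c1 T'), ht, relfinrank_self] at this
  omega

end Pool.Agent.MP_249f74_an.H10
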